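import Pool.Agent.MP_51358b_an.Defs

-- part MP_51358b_an.Gen
section

/-!
General lemmas on one-sided derivatives, invariance, global solutions and time changes.
-/

namespace Pool.Agent.MP_51358b_an

open Set Filter Topology

lemma ev_le {f : ℝ → ℝ} {f' x c : ℝ} (hf : HasDerivWithinAt f f' (Ici x) x) (hx : f x ≤ c)
    (hneg : f x = c → f' < 0) : ∀ᶠ t in 𝓝[>] x, f t ≤ c := by
  rcases hx.lt_or_eq with h | h
  · have h1 : ∀ᶠ t in 𝓝[Ici x] x, f t < c := hf.continuousWithinAt.eventually (gt_mem_nhds h)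
    exact (h1.filter_mono (nhdsWithin_mono _ Ioi_subset_Ici_self)).mono fun t ht => ht.le
  · have h1 := (hasDerivWithinAt_iff_tendsto_slope' (s := Ioi x) (by simp)).1 hf.Ioi_of_Ici
    have h2 : ∀ᶠ t in 𝓝[>] x, slope f x t < 0 := h1.eventually (gt_mem_nhds (hneg h))
    filter_upwards [h2, self_mem_nhdsWithin] with t ht htx
    rw [slope_def_field] at ht
    have h3 : 0 < t - x := sub_pos.2 htx
    have h4 := (div_neg_iff.1 ht)
    rcases h4 with h4 | h4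
    · linarith [h4.2]
    · linarith [h4.1]

lemma ev_ge {f : ℝ → ℝ} {f' x c : ℝ} (hf : HasDerivWithinAt f f' (Ici x) x) (hx : c ≤ f x)
    (hpos : f x = c → 0 < f') : ∀ᶠ t in 𝓝[>] x, c ≤ f t := by
  have h := ev_le (f := fun t => -f t) (c := -c) hf.neg (by linarith)
    (fun h => by have := hpos (by linarith); linarith)
  exact h.mono fun t ht => by linarith

lemma invariant {E : Type*} [TopologicalSpace E] {X : ℝ → E} {D : Set E} {a : ℝ}
    (hX : ContinuousOn X (Ici a)) (hD : IsClosed D) (h0 : X a ∈ D)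
    (hstep : ∀ t, a ≤ t → X t ∈ D → ∀ᶠ s in 𝓝[>] t, X s ∈ D) : ∀ t, a ≤ t → X t ∈ D := by
  intro T hT
  have hc : IsClosed ({t | X t ∈ D} ∩ Icc a T) := by
    have := (hX.mono (show Icc a T ⊆ Ici a from Icc_subset_Ici_self)).preimage_isClosed_of_isClosed
      isClosed_Icc hD
    rw [inter_comm] at this
    exact this
  exact hc.Icc_subset_of_forall_mem_nhdsWithin h0 (fun x hx => hstep x hx.2.1 hx.1) ⟨hT, le_rfl⟩

lemma exp_decay {f f' : ℝ → ℝ} {a κ : ℝ}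
    (hf : ∀ t, a ≤ t → HasDerivWithinAt f (f' t) (Ici a) t)
    (hb : ∀ t, a ≤ t → f' t ≤ -κ * f t) : ∀ t, a ≤ t → f t ≤ f a * Real.exp (-κ * (t - a)) := by
  intro T hT
  have hg : ∀ t, a ≤ t → HasDerivWithinAt (fun t => f t * Real.exp (κ * (t - a)))
      (f' t * Real.exp (κ * (t - a)) + f t * (Real.exp (κ * (t - a)) * κ)) (Ici a) t := by
    intro t ht
    refine (hf t ht).mul ?_
    have h1 : HasDerivAt (fun t => κ * (t - a)) κ t := by
      simpa using ((hasDerivAt_id t).sub_const a).const_mul κ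
    exact h1.exp.hasDerivWithinAt
  have h := image_le_of_deriv_right_le_deriv_boundary (a := a) (b := T)
    (f := fun t => f t * Real.exp (κ * (t - a)))
    (f' := fun t => f' t * Real.exp (κ * (t - a)) + f t * (Real.exp (κ * (t - a)) * κ))
    (B := fun _ => f a) (B' := fun _ => 0)
    (fun t ht => ((hg t ht.1).continuousWithinAt).mono Icc_subset_Ici_self)
    (fun t ht => (hg t ht.1).mono (Ici_subset_Ici.2 ht.1)) (by simp) continuousOn_const
    (fun t _ => hasDerivWithinAt_const _ _ _)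
    (fun t ht => by
      have h1 := hb t ht.1
      have h2 := Real.exp_pos (κ * (t - a))
      nlinarith) ⟨hT, le_rfl⟩
  have h2 : Real.exp (κ * (T - a)) * Real.exp (-κ * (T - a)) = 1 := by
    rw [← Real.exp_add]; simp
  have h3 := Real.exp_pos (-κ * (T - a))
  calc f T = f T * Real.exp (κ * (T - a)) * Real.exp (-κ * (T - a)) := by
        rw [mul_assoc, h2, mul_one]
    _ ≤ f a * Real.exp (-κ * (T - a)) := mul_le_mul_of_nonneg_right h h3.le

lemma le_of_deriv_nonpos {f f' : ℝ → ℝ} {c : ℝ} (hf : ∀ t, HasDerivAt f (f' t) t)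
    (h0 : f 0 ≤ c) (hb : ∀ t, 0 ≤ t → c < f t → f' t ≤ 0) : ∀ t, 0 ≤ t → f t ≤ c := by
  intro T hT
  refine le_of_forall_pos_le_add fun η hη => ?_
  have hε : 0 < η / (1 + T) := by positivity
  have hcont : Continuous f := continuous_iff_continuousAt.2 fun t => (hf t).continuousAt
  have h := invariant (X := fun t => f t - η / (1 + T) * (1 + t)) (D := Iic c) (a := 0)
    (by fun_prop) isClosed_Iic (by simp only [mem_Iic]; linarith) (fun t ht hD => by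
      have hd : HasDerivAt (fun t => f t - η / (1 + T) * (1 + t)) (f' t - η / (1 + T)) t := by
        exact ((hf t).fun_sub (((hasDerivAt_id' t).const_add 1).const_mul (η / (1 + T)))).congr_deriv
          (by ring)
      refine ev_le hd.hasDerivWithinAt hD fun he => ?_
      have h1 : 0 < η / (1 + T) * (1 + t) := by positivity
      have := hb t ht (by linarith)
      linarith) T hT
  simp only [mem_Iic] at h
  rw [div_mul_cancel₀ _ (by positivity)] at h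
  linarith

lemma exists_sol_Ioo {E : Type*} [NormedAddCommGroup E] [NormedSpace ℝ E] [CompleteSpace E]
    {f : E → E} {K L : NNReal} (hK : LipschitzWith K f) (hL : ∀ x, ‖f x‖ ≤ L) (x : E) (n : ℕ) :
    ∃ α : ℝ → E, α 0 = x ∧ ∀ t ∈ Ioo (-((n : ℝ) + 1)) ((n : ℝ) + 1),
      HasDerivAt α (f (α t)) t := by
  have hn : (0 : ℝ) < (n : ℝ) + 1 := by positivity
  have hpl : IsPicardLindelof (fun _ x => f x)
      (tmin := -((n : ℝ) + 1)) (tmax := (n : ℝ) + 1) ⟨0, by constructor <;> linarith⟩ x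
      (NNReal.mk (L * ((n : ℝ) + 1)) (by positivity)) 0 L K := by
    constructor
    · exact fun t _ => hK.lipschitzOnWith
    · exact fun x _ => continuousOn_const
    · exact fun t _ x _ => hL x
    · simp
  obtain ⟨α, h0, hα⟩ := hpl.exists_eq_forall_mem_Icc_hasDerivWithinAt₀
  exact ⟨α, h0, fun t ht =>
    (hα t (Ioo_subset_Icc_self ht)).hasDerivAt (Icc_mem_nhds ht.1 ht.2)⟩

lemma exists_sol {E : Type*} [NormedAddCommGroup E] [NormedSpace ℝ E] [CompleteSpace E]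
    {f : E → E} {K L : NNReal} (hK : LipschitzWith K f) (hL : ∀ x, ‖f x‖ ≤ L) (x : E) :
    ∃ φ : ℝ → E, φ 0 = x ∧ ∀ t, HasDerivAt φ (f (φ t)) t := by
  choose α h0 hα using exists_sol_Ioo hK hL x
  have hcomp : ∀ m n : ℕ, m ≤ n → EqOn (α m) (α n) (Ioo (-((m : ℝ) + 1)) ((m : ℝ) + 1)) := by
    intro m n hmn
    have hm : (0 : ℝ) < (m : ℝ) + 1 := by positivity
    have hmn' : (m : ℝ) ≤ n := by exact_mod_cast hmn
    refine ODE_solution_unique_of_mem_Ioo (s := fun _ => univ) (t₀ := 0)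
      (v := fun _ x => f x)
      (fun t _ => hK.lipschitzOnWith) ⟨by linarith, hm⟩
      (fun t ht => ⟨hα m t ht, trivial⟩)
      (fun t ht => ⟨hα n t ⟨by linarith [ht.1], by linarith [ht.2]⟩, trivial⟩) ?_
    rw [h0, h0]
  have hmem : ∀ t : ℝ, t ∈ Ioo (-((⌈|t|⌉₊ : ℝ) + 1)) ((⌈|t|⌉₊ : ℝ) + 1) := by
    intro t
    have h1 := Nat.le_ceil |t|
    have h2 := le_abs_self t
    have h3 := neg_abs_le t
    constructor <;> linarith
  have hall : ∀ (n : ℕ), ∀ t ∈ Ioo (-((n : ℝ) + 1)) ((n : ℝ) + 1), α ⌈|t|⌉₊ t = α n t := by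
    intro n t ht
    rcases le_total ⌈|t|⌉₊ n with h | h
    · exact hcomp _ _ h (hmem t)
    · exact (hcomp _ _ h ht).symm
  refine ⟨fun t => α ⌈|t|⌉₊ t, h0 _, fun t => ?_⟩
  refine (hα _ t (hmem t)).congr_of_eventuallyEq ?_
  filter_upwards [Ioo_mem_nhds (hmem t).1 (hmem t).2] with u hu
  exact hall _ u hu

lemma time_change {g : ℝ → ℝ} (hg : Continuous g) {m : ℝ} (hm : 0 < m) (hgm : ∀ t, m ≤ g t)
    (θ₀ : ℝ) : ∃ θ τ : ℝ → ℝ, (∀ t, HasDerivAt θ (g t) t) ∧ θ 0 = θ₀ ∧ (∀ φ, θ (τ φ) = φ) ∧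
      (∀ t, τ (θ t) = t) ∧ (∀ φ, HasDerivAt τ (g (τ φ))⁻¹ φ) ∧ StrictMono τ ∧
      ∀ t, 0 ≤ t → θ₀ + m * t ≤ θ t := by
  set θ : ℝ → ℝ := fun t => θ₀ + ∫ s in (0 : ℝ)..t, g s with hθ
  have hd : ∀ t, HasDerivAt θ (g t) t := fun t =>
    (hg.deriv_integral (a := 0) (b := t) ▸
      ((intervalIntegral.differentiable_integral_of_continuous hg t).hasDerivAt)).const_add θ₀
  have h0 : θ 0 = θ₀ := by simp [hθ]
  have hmono : Monotone (fun t => θ t - m * t) := by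
    have hd2 : ∀ t, HasDerivAt (fun t => θ t - m * t) (g t - m) t := fun t => by
      exact ((hd t).fun_sub ((hasDerivAt_id' t).const_mul m)).congr_deriv (by ring)
    refine monotone_of_deriv_nonneg (fun t => (hd2 t).differentiableAt) fun t => ?_
    rw [(hd2 t).deriv]; linarith [hgm t]
  have hsm : StrictMono θ := fun s t hst => by
    have h1 := hmono hst.le
    simp only at h1
    nlinarith
  have hc : Continuous θ := continuous_iff_continuousAt.2 fun t => (hd t).continuousAt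
  have hup : ∀ t, 0 ≤ t → θ₀ + m * t ≤ θ t := fun t ht => by
    have h1 := hmono ht
    simp only [h0] at h1
    linarith
  have hdown : ∀ t, t ≤ 0 → θ t ≤ θ₀ + m * t := fun t ht => by
    have h1 := hmono ht
    simp only [h0] at h1
    linarith
  have hlin : Tendsto (fun t => θ₀ + m * t) atTop atTop :=
    tendsto_atTop_add_const_left _ _ (tendsto_id.const_mul_atTop hm)
  have hlin' : Tendsto (fun t => θ₀ + m * t) atBot atBot :=
    tendsto_atBot_add_const_left _ _ (tendsto_id.const_mul_atBot hm)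
  have hsurj : Function.Surjective θ := hc.surjective
    (tendsto_atTop_mono' _ ((eventually_ge_atTop 0).mono hup) hlin)
    (tendsto_atBot_mono' _ ((eventually_le_atBot 0).mono hdown) hlin')
  let e := hsm.orderIsoOfSurjective θ hsurj
  have he : ∀ φ, θ (e.symm φ) = φ := fun φ => e.apply_symm_apply φ
  refine ⟨θ, e.symm, hd, h0, he, fun t => e.symm_apply_apply t, fun φ => ?_, e.symm.strictMono,
    hup⟩
  exact HasDerivAt.of_local_left_inverse e.symm.continuous.continuousAt (hd _)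
    (hm.trans_le (hgm _)).ne' (Eventually.of_forall he)

lemma bdd_of_compact {E : Type*} [TopologicalSpace E] {K : Set E} (hK : IsCompact K)
    {f : E → ℝ} (hf : ContinuousOn f K) : ∃ C, 0 < C ∧ ∀ z ∈ K, |f z| ≤ C := by
  obtain ⟨C, hC⟩ := hK.exists_bound_of_continuousOn hf
  exact ⟨max C 1, by positivity, fun z hz => (hC z hz).trans (le_max_left _ _)⟩

lemma lip_of_compact {E : Type*} [NormedAddCommGroup E] [NormedSpace ℝ E] {K : Set E}
    (hK : IsCompact K) {f : E → ℝ} (hf : ∀ z ∈ K, ContDiffAt ℝ 1 f z) :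
    ∃ L, 0 < L ∧ ∀ z ∈ K, ∀ w ∈ K, |f z - f w| ≤ L * dist z w := by
  have h : LocallyLipschitzOn K f := fun z hz => by
    obtain ⟨L, t, ht, h⟩ := (hf z hz).exists_lipschitzOnWith
    exact ⟨L, t, mem_nhdsWithin_of_mem_nhds ht, h⟩
  obtain ⟨L, hL⟩ := h.exists_lipschitzOnWith_of_compact hK
  refine ⟨L + 1, by positivity, fun z hz w hw => ?_⟩
  have h1 := hL.dist_le_mul z hz w hw
  rw [Real.dist_eq] at h1
  nlinarith [dist_nonneg (x := z) (y := w)]

lemma las_of {f : (Fin 3 → ℝ) → Fin 3 → ℝ} {A : Set (Fin 3 → ℝ)} (hA : IsCompact A)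
    (hne : A.Nonempty)
    (h1 : ∀ ε : ℝ, 0 < ε → ∃ U, IsOpen U ∧ A ⊆ U ∧ ∀ u, IsSol f u → u 0 ∈ U →
      ∀ t, 0 ≤ t → Metric.infDist (u t) A < ε)
    (h2 : ∃ U, IsOpen U ∧ A ⊆ U ∧ ∀ u, IsSol f u → u 0 ∈ U →
      Tendsto (fun t => Metric.infDist (u t) A) atTop (𝓝 0)) : LAS f A := by
  constructor
  · intro ε hε
    obtain ⟨U, hU, hAU, h⟩ := h1 ε hε
    obtain ⟨δ, hδ, hs⟩ := hA.exists_thickening_subset_open hU hAU
    exact ⟨δ, hδ, fun u hu h0 =>
      h u hu (hs ((Metric.mem_thickening_iff_infDist_lt hne).2 h0))⟩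
  · obtain ⟨U, hU, hAU, h⟩ := h2
    obtain ⟨δ, hδ, hs⟩ := hA.exists_thickening_subset_open hU hAU
    exact ⟨δ, hδ, fun u hu h0 =>
      h u hu (hs ((Metric.mem_thickening_iff_infDist_lt hne).2 h0))⟩

end Pool.Agent.MP_51358b_an

end

-- part MP_51358b_an.Dyn
section

/-!
An abstract rotating system with a trapping solid torus and contraction along rays.
-/

namespace Pool.Agent.MP_51358b_an

open Set Filter Topology

abbrev E3 := ℝ × ℝ × ℝ

def qq (p : E3) : ℝ := p.1 ^ 2 + p.2.1 ^ 2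

def K0 : Set E3 := {p | 2 ≤ qq p ∧ qq p ≤ 6 ∧ -3 ≤ p.2.2 ∧ p.2.2 ≤ 3}

def ray (p : E3) (φ : ℝ) : Prop :=
  -p.1 * Real.sin φ + p.2.1 * Real.cos φ = 0 ∧ 0 ≤ p.1 * Real.cos φ + p.2.1 * Real.sin φ

@[fun_prop] lemma continuous_qq : Continuous qq := by unfold qq; fun_prop

lemma isClosed_K0 : IsClosed K0 := by
  refine (isClosed_le continuous_const continuous_qq).inter
    ((isClosed_le continuous_qq continuous_const).inter
    ((isClosed_le continuous_const continuous_snd.snd).inter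
      (isClosed_le continuous_snd.snd continuous_const)))

lemma isCompact_K0 : IsCompact K0 := by
  refine (isCompact_Icc (a := ((-3 : ℝ), (-3 : ℝ), (-3 : ℝ))) (b := (3, 3, 3))).of_isClosed_subset
    isClosed_K0 ?_
  rintro ⟨x, y, z⟩ ⟨-, h2, h3, h4⟩
  simp only [qq] at h2 h3 h4
  simp only [mem_Icc, Prod.mk_le_mk]
  refine ⟨⟨?_, ?_, h3⟩, ?_, ?_, h4⟩ <;> nlinarith

structure Sys where
  F1 : E3 → ℝ
  F2 : E3 → ℝ
  F3 : E3 → ℝ
  H : E3 → ℝ
  dH : E3 → ℝ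
  Th : E3 → ℝ
  k : ℝ
  cF1 : Continuous F1
  cF2 : Continuous F2
  cH : Continuous H
  chain : ∀ (X : ℝ → E3) (s : Set ℝ) (t : ℝ),
    HasDerivWithinAt X (F1 (X t), F2 (X t), F3 (X t)) s t →
      HasDerivWithinAt (fun t => H (X t)) (dH (X t)) s t
  Th_eq : ∀ p, Th p = (p.1 * F2 p - p.2.1 * F1 p) / qq p
  kpos : 0 < k
  Hq : ∀ p ∈ K0, |H p - qq p| ≤ 1 / 2
  up : ∀ p ∈ K0, 9 / 2 ≤ H p → H p ≤ 5 → dH p < 0
  down : ∀ p ∈ K0, 3 ≤ H p → H p ≤ 7 / 2 → 0 < dH p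
  zup : ∀ p ∈ K0, 1 ≤ p.2.2 → F3 p < 0
  zdown : ∀ p ∈ K0, p.2.2 ≤ -1 → 0 < F3 p
  th : ∀ p ∈ K0, 1 ≤ Th p
  contr : ∀ p ∈ K0, ∀ p' ∈ K0, ∀ φ, ray p φ → ray p' φ → 3 ≤ H p → 3 ≤ H p' →
    2 * (H p - H p') * (dH p / Th p - dH p' / Th p') +
      k * (2 * (p.2.2 - p'.2.2) * (F3 p / Th p - F3 p' / Th p')) ≤
      -k * ((H p - H p') ^ 2 + k * (p.2.2 - p'.2.2) ^ 2)
  dist_le : ∀ p ∈ K0, ∀ p' ∈ K0, ∀ φ, ray p φ → ray p' φ →
    k * dist p p' ^ 2 ≤ (H p - H p') ^ 2 + k * (p.2.2 - p'.2.2) ^ 2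

lemma dfst {A B : Type*} [NormedAddCommGroup A] [NormedSpace ℝ A] [NormedAddCommGroup B]
    [NormedSpace ℝ B] {X : ℝ → A × B} {a : A} {b : B} {s : Set ℝ} {t : ℝ}
    (h : HasDerivWithinAt X (a, b) s t) : HasDerivWithinAt (fun t => (X t).1) a s t :=
  (ContinuousLinearMap.fst ℝ A B).hasFDerivAt.comp_hasDerivWithinAt t h

lemma dsnd {A B : Type*} [NormedAddCommGroup A] [NormedSpace ℝ A] [NormedAddCommGroup B]
    [NormedSpace ℝ B] {X : ℝ → A × B} {a : A} {b : B} {s : Set ℝ} {t : ℝ}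
    (h : HasDerivWithinAt X (a, b) s t) : HasDerivWithinAt (fun t => (X t).2) b s t :=
  (ContinuousLinearMap.snd ℝ A B).hasFDerivAt.comp_hasDerivWithinAt t h

namespace Sys

variable (S : Sys)

def V (p p' : E3) : ℝ := (S.H p - S.H p') ^ 2 + S.k * (p.2.2 - p'.2.2) ^ 2

def D (a b z : ℝ) : Set E3 := {p | p ∈ K0 ∧ a ≤ S.H p ∧ S.H p ≤ b ∧ -z ≤ p.2.2 ∧ p.2.2 ≤ z}

def XS (X : ℝ → E3) : Prop :=
  ∀ t, 0 ≤ t → HasDerivWithinAt X (S.F1 (X t), S.F2 (X t), S.F3 (X t)) (Ici 0) t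

def AS (Z : ℝ → E3) (a : ℝ) : Prop :=
  ∀ φ, a ≤ φ → Z φ ∈ K0 ∧ 3 ≤ S.H (Z φ) ∧ ray (Z φ) φ ∧
    HasDerivWithinAt (fun φ => S.H (Z φ)) (S.dH (Z φ) / S.Th (Z φ)) (Ici a) φ ∧
    HasDerivWithinAt (fun φ => (Z φ).2.2) (S.F3 (Z φ) / S.Th (Z φ)) (Ici a) φ

lemma V_nonneg (p p' : E3) : 0 ≤ S.V p p' := by
  have := S.kpos
  unfold V; positivity

lemma continuous_V : Continuous fun z : E3 × E3 => S.V z.1 z.2 := by
  have := S.cH
  unfold V; fun_prop

lemma isClosed_D (a b z : ℝ) : IsClosed (S.D a b z) :=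
  isClosed_K0.inter ((isClosed_le continuous_const S.cH).inter
    ((isClosed_le S.cH continuous_const).inter
    ((isClosed_le continuous_const continuous_snd.snd).inter
      (isClosed_le continuous_snd.snd continuous_const))))

variable {S}

lemma XS.cont {X : ℝ → E3} (hX : S.XS X) : ContinuousOn X (Ici 0) :=
  fun t ht => (hX t ht).continuousWithinAt

lemma XS.d1 {X : ℝ → E3} (hX : S.XS X) {t : ℝ} (ht : 0 ≤ t) :
    HasDerivWithinAt (fun t => (X t).1) (S.F1 (X t)) (Ici 0) t :=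
  dfst (hX t ht)

lemma XS.d23 {X : ℝ → E3} (hX : S.XS X) {t : ℝ} (ht : 0 ≤ t) :
    HasDerivWithinAt (fun t => (X t).2) (S.F2 (X t), S.F3 (X t)) (Ici 0) t :=
  dsnd (hX t ht)

lemma XS.d2 {X : ℝ → E3} (hX : S.XS X) {t : ℝ} (ht : 0 ≤ t) :
    HasDerivWithinAt (fun t => (X t).2.1) (S.F2 (X t)) (Ici 0) t :=
  dfst (hX.d23 ht)

lemma XS.d3 {X : ℝ → E3} (hX : S.XS X) {t : ℝ} (ht : 0 ≤ t) :
    HasDerivWithinAt (fun t => (X t).2.2) (S.F3 (X t)) (Ici 0) t :=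
  dsnd (hX.d23 ht)

lemma XS.inv {X : ℝ → E3} (hX : S.XS X) {a b z : ℝ} (ha : 3 ≤ a) (ha' : a ≤ 7 / 2)
    (hb : 9 / 2 ≤ b) (hb' : b ≤ 5) (hz : 1 ≤ z) (hz' : z ≤ 2) (h0 : X 0 ∈ S.D a b z) :
    ∀ t, 0 ≤ t → X t ∈ S.D a b z := by
  refine invariant hX.cont (S.isClosed_D a b z) h0 fun t ht hD => ?_
  obtain ⟨hK, h1, h2, h3, h4⟩ := hD
  have hsub : Ici t ⊆ Ici 0 := Ici_subset_Ici.2 ht
  have hH := (S.chain X _ t (hX t ht)).mono hsub
  have hz3 := (hX.d3 ht).mono hsub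
  have hq := abs_le.1 (S.Hq _ hK)
  have hc : ContinuousWithinAt (fun t => qq (X t)) (Ioi t) t :=
    continuous_qq.continuousAt.comp_continuousWithinAt
      ((hX.cont t ht).mono (Ioi_subset_Ici_self.trans hsub))
  have e1 : ∀ᶠ s in 𝓝[>] t, 2 < qq (X s) := hc.eventually (lt_mem_nhds (by linarith [hq.2]))
  have e2 : ∀ᶠ s in 𝓝[>] t, qq (X s) < 6 := hc.eventually (gt_mem_nhds (by linarith [hq.1]))
  have e3 := ev_ge hH h1 fun h => S.down _ hK (by linarith) (by linarith)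
  have e4 := ev_le hH h2 fun h => S.up _ hK (by linarith) (by linarith)
  have e5 := ev_ge hz3 h3 fun h => S.zdown _ hK (by linarith)
  have e6 := ev_le hz3 h4 fun h => S.zup _ hK (by linarith)
  filter_upwards [e1, e2, e3, e4, e5, e6] with s e1 e2 e3 e4 e5 e6
  exact ⟨⟨e1.le, e2.le, by linarith, by linarith⟩, e3, e4, e5, e6⟩

lemma AS.mono {Z : ℝ → E3} {a a' : ℝ} (hZ : S.AS Z a) (h : a ≤ a') : S.AS Z a' := by
  intro φ hφ
  obtain ⟨h1, h2, h3, h4, h5⟩ := hZ φ (h.trans hφ)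
  exact ⟨h1, h2, h3, h4.mono (Ici_subset_Ici.2 h), h5.mono (Ici_subset_Ici.2 h)⟩

lemma AS.shift {Z : ℝ → E3} (hZ : S.AS Z 0) (n : ℕ) :
    S.AS (fun φ => Z (φ + n * (2 * Real.pi))) 0 := by
  intro φ hφ
  have hn : 0 ≤ (n : ℝ) * (2 * Real.pi) := by positivity
  obtain ⟨h1, h2, h3, h4, h5⟩ := hZ (φ + n * (2 * Real.pi)) (by linarith)
  have hs : HasDerivWithinAt (fun φ : ℝ => φ + n * (2 * Real.pi)) 1 (Ici 0) φ :=
    ((hasDerivAt_id' φ).add_const _).hasDerivWithinAt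
  have hm : MapsTo (fun φ : ℝ => φ + n * (2 * Real.pi)) (Ici 0) (Ici 0) := fun x hx => by
    simp only [mem_Ici] at hx ⊢; linarith
  refine ⟨h1, h2, ?_, ?_, ?_⟩
  · simpa only [ray, Real.sin_add_nat_mul_two_pi, Real.cos_add_nat_mul_two_pi] using h3
  · exact (h4.comp φ hs hm).congr_deriv (mul_one _)
  · exact (h5.comp φ hs hm).congr_deriv (mul_one _)

lemma AS.sync {Z Z' : ℝ → E3} {a : ℝ} (hZ : S.AS Z a) (hZ' : S.AS Z' a) :
    ∀ φ, a ≤ φ → S.V (Z φ) (Z' φ) ≤ S.V (Z a) (Z' a) * Real.exp (-S.k * (φ - a)) := by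
  refine exp_decay (f := fun φ => S.V (Z φ) (Z' φ))
    (f' := fun φ => 2 * (S.H (Z φ) - S.H (Z' φ)) *
      (S.dH (Z φ) / S.Th (Z φ) - S.dH (Z' φ) / S.Th (Z' φ)) +
      S.k * (2 * ((Z φ).2.2 - (Z' φ).2.2) *
        (S.F3 (Z φ) / S.Th (Z φ) - S.F3 (Z' φ) / S.Th (Z' φ)))) (fun φ hφ => ?_) fun φ hφ => ?_
  · obtain ⟨-, -, -, h4, h5⟩ := hZ φ hφ
    obtain ⟨-, -, -, h4', h5'⟩ := hZ' φ hφ
    refine (((h4.fun_sub h4').fun_pow 2).fun_add
      (((h5.fun_sub h5').fun_pow 2).const_mul S.k)).congr_deriv ?_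
    norm_num
  · obtain ⟨h1, h2, h3, -, -⟩ := hZ φ hφ
    obtain ⟨h1', h2', h3', -, -⟩ := hZ' φ hφ
    exact S.contr _ h1 _ h1' φ h3 h3' h2 h2'

lemma XS.angle {X : ℝ → E3} (hX : S.XS X) (hK : ∀ t, 0 ≤ t → X t ∈ K0)
    (hH : ∀ t, 0 ≤ t → 3 ≤ S.H (X t)) {φ₀ : ℝ} (hr : ray (X 0) φ₀) :
    ∃ θ τ : ℝ → ℝ, τ φ₀ = 0 ∧ (∀ t, τ (θ t) = t) ∧ StrictMono τ ∧ (∀ t, 0 ≤ t → φ₀ + t ≤ θ t) ∧
      (∀ φ, φ₀ ≤ φ → HasDerivAt τ (S.Th (X (τ φ)))⁻¹ φ) ∧ Continuous τ ∧
      S.AS (fun φ => X (τ φ)) φ₀ := by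
  have hq0 : ∀ p ∈ K0, qq p ≠ 0 := fun p hp => by linarith [hp.1]
  have hThc : ContinuousOn S.Th K0 := by
    have h1 := S.cF1
    have h2 := S.cF2
    refine ContinuousOn.congr (f := fun p => (p.1 * S.F2 p - p.2.1 * S.F1 p) / qq p)
      (ContinuousOn.div (by fun_prop) (by fun_prop) hq0) fun p _ => S.Th_eq p
  have hXm : Continuous fun t : ℝ => X (max t 0) :=
    hX.cont.comp_continuous (by fun_prop) fun t => mem_Ici.2 (le_max_right _ _)
  have hg : Continuous fun t : ℝ => S.Th (X (max t 0)) :=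
    hThc.comp_continuous hXm fun t => hK _ (le_max_right _ _)
  obtain ⟨θ, τ, hθd, hθ0, hθτ, hτθ, hτd, hτm, hlow⟩ :=
    time_change hg one_pos (fun t => S.th _ (hK _ (le_max_right _ _))) φ₀
  have hτ0 : τ φ₀ = 0 := by rw [← hθ0, hτθ]
  have hτpos : ∀ φ, φ₀ ≤ φ → 0 ≤ τ φ := fun φ h => hτ0 ▸ hτm.monotone h
  have hτd' : ∀ φ, φ₀ ≤ φ → HasDerivAt τ (S.Th (X (τ φ)))⁻¹ φ := fun φ h => by
    have := hτd φ
    rwa [max_eq_left (hτpos φ h)] at this
  have hθd' : ∀ t, 0 ≤ t → HasDerivWithinAt θ (S.Th (X t)) (Ici 0) t := fun t ht => by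
    have := hθd t
    rw [max_eq_left ht] at this
    exact this.hasDerivWithinAt
  obtain ⟨M, -, hM⟩ := bdd_of_compact isCompact_K0
    (f := fun p => (p.1 * S.F1 p + p.2.1 * S.F2 p) / qq p)
    (by
      have h1 := S.cF1
      have h2 := S.cF2
      exact ContinuousOn.div (by fun_prop) (by fun_prop) hq0)
  have hd : ∀ t, 0 ≤ t → -(X t).1 * Real.sin (θ t) + (X t).2.1 * Real.cos (θ t) = 0 := by
    have h := exp_decay (a := 0) (κ := -(2 * M))
      (f := fun t => (-(X t).1 * Real.sin (θ t) + (X t).2.1 * Real.cos (θ t)) ^ 2)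
      (f' := fun t => 2 * (((X t).1 * S.F1 (X t) + (X t).2.1 * S.F2 (X t)) / qq (X t)) *
        (-(X t).1 * Real.sin (θ t) + (X t).2.1 * Real.cos (θ t)) ^ 2)
      (fun t ht => by
        refine ((((hX.d1 ht).fun_neg.fun_mul (hθd' t ht).sin).fun_add
          ((hX.d2 ht).fun_mul (hθd' t ht).cos)).fun_pow 2).congr_deriv ?_
        have h1 := hq0 _ (hK t ht)
        rw [S.Th_eq]
        field_simp
        simp only [qq]
        norm_num
        ring)
      (fun t ht => by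
        have h1 := (abs_le.1 (hM _ (hK t ht))).2
        have h2 := sq_nonneg (-(X t).1 * Real.sin (θ t) + (X t).2.1 * Real.cos (θ t))
        nlinarith)
    intro t ht
    have h1 := h t ht
    simp only [hθ0, hr.1] at h1
    exact pow_eq_zero_iff (n := 2) (by norm_num) |>.1
      (le_antisymm (by simpa using h1) (sq_nonneg _))
  have hθc : Continuous θ := continuous_iff_continuousAt.2 fun t => (hθd t).continuousAt
  have hcc : ContinuousOn (fun t => (X t).1 * Real.cos (θ t) + (X t).2.1 * Real.sin (θ t))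
      (Ici 0) := by
    have := hX.cont
    fun_prop
  have hc : ∀ t, 0 ≤ t → 0 ≤ (X t).1 * Real.cos (θ t) + (X t).2.1 * Real.sin (θ t) := by
    refine invariant (D := Ici 0) hcc isClosed_Ici (by simpa only [hθ0, mem_Ici] using hr.2)
      fun t ht hD => ?_
    have h1 : 0 < (X t).1 * Real.cos (θ t) + (X t).2.1 * Real.sin (θ t) := by
      refine lt_of_le_of_ne hD fun h => ?_
      have h2 := hd t ht
      have h3 := (hK t ht).1
      have h4 := Real.sin_sq_add_cos_sq (θ t)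
      have h5 : qq (X t) = ((X t).1 * Real.cos (θ t) + (X t).2.1 * Real.sin (θ t)) ^ 2 +
          (-(X t).1 * Real.sin (θ t) + (X t).2.1 * Real.cos (θ t)) ^ 2 := by
        unfold qq
        linear_combination (-(X t).1 ^ 2 - (X t).2.1 ^ 2) * h4
      rw [← h, h2] at h5
      linarith
    have h2 := ((hcc t ht).mono (Ioi_subset_Ici_self.trans (Ici_subset_Ici.2 ht))).eventually
      (lt_mem_nhds h1)
    exact h2.mono fun s hs => hs.le
  refine ⟨θ, τ, hτ0, hτθ, hτm, fun t ht => by simpa using hlow t ht, hτd',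
    continuous_iff_continuousAt.2 fun φ => (hτd φ).continuousAt, fun φ hφ => ?_⟩
  have ht := hτpos φ hφ
  have hm : MapsTo τ (Ici φ₀) (Ici 0) := fun x hx => hτpos x hx
  refine ⟨hK _ ht, hH _ ht, ?_, ?_, ?_⟩
  · have h1 := hd _ ht
    have h2 := hc _ ht
    rw [hθτ] at h1 h2
    exact ⟨h1, h2⟩
  · exact ((S.chain X _ _ (hX _ ht)).comp φ (hτd' φ hφ).hasDerivWithinAt hm).congr_deriv
      (div_eq_mul_inv _ _).symm
  · exact ((hX.d3 ht).comp φ (hτd' φ hφ).hasDerivWithinAt hm).congr_deriv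
      (div_eq_mul_inv _ _).symm

end Sys

end Pool.Agent.MP_51358b_an

end
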