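import Pool.Agent.MP_51358b_an.Mg.Cycle
import Pool.Agent.MP_51358b_an.Mg.Dyn

-- part MP_51358b_an.Est
section

/-!
From smooth remainders to the hypotheses of the abstract rotating system, for small `σ`.
-/

namespace Pool.Agent.MP_51358b_an

open Set Filter Topology

abbrev Z4 := ℝ × E3

lemma ev_small (C : ℝ) {c : ℝ} (hc : 0 < c) : ∀ᶠ σ in 𝓝[>] (0 : ℝ), σ * C ≤ c := by
  have h : Tendsto (fun σ : ℝ => σ * C) (𝓝[>] 0) (𝓝 (0 * C)) :=
    (tendsto_id.mul_const C).mono_left nhdsWithin_le_nhds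
  rw [zero_mul] at h
  exact h.eventually (ge_mem_nhds hc)

def GG (n h : ℝ) : ℝ := -n * h * (h - 1) * (h - 4)

lemma isCompact_K1 (a : ℝ) : IsCompact (Icc (0 : ℝ) a ×ˢ K0) := isCompact_Icc.prod isCompact_K0

lemma dist_ray {p p' : E3} {φ : ℝ} (h : ray p φ) (h' : ray p' φ) :
    |p.1 - p'.1| ≤ |√(qq p) - √(qq p')| ∧ |p.2.1 - p'.2.1| ≤ |√(qq p) - √(qq p')| := by
  obtain ⟨a1, a2⟩ := ray_eq h
  obtain ⟨b1, b2⟩ := ray_eq h'
  set ρ := √(qq p)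
  set ρ' := √(qq p')
  rw [a1, a2, b1, b2, ← sub_mul, ← sub_mul, abs_mul, abs_mul]
  exact ⟨mul_le_of_le_one_right (abs_nonneg _) (Real.abs_cos_le_one _),
    mul_le_of_le_one_right (abs_nonneg _) (Real.abs_sin_le_one _)⟩

lemma contr_aux {k σ n m a b d U W : ℝ} (hk : 0 < k) (hk1 : k ≤ 1) (hn : 18 ≤ n) (hm : 1 ≤ m)
    (hd : d ^ 2 ≤ a ^ 2 + b ^ 2) (hU : |σ * U| ≤ d) (hW : |σ * W| ≤ d) :
    2 * a * (k * (-n * m * a / 9 + σ * U)) + k * (2 * b * (-2 * b + σ * W)) ≤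
      -k * (a ^ 2 + k * b ^ 2) := by
  have h1 : (σ * U) ^ 2 ≤ d ^ 2 := sq_le_sq' (abs_le.1 hU).1 (abs_le.1 hU).2
  have h2 : (σ * W) ^ 2 ≤ d ^ 2 := sq_le_sq' (abs_le.1 hW).1 (abs_le.1 hW).2
  have h3 : 18 ≤ n * m := by nlinarith
  have h4 : 2 * a * (-n * m * a / 9 + σ * U) + 2 * b * (-2 * b + σ * W) ≤ -(a ^ 2 + k * b ^ 2) := by
    nlinarith [sq_nonneg (a - σ * U), sq_nonneg (b - σ * W), mul_nonneg (sub_nonneg.2 h3) (sq_nonneg a),
      mul_nonneg (sub_nonneg.2 hk1) (sq_nonneg b)]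
  nlinarith [mul_le_mul_of_nonneg_left h4 hk.le]

theorem exists_sys {Hh RH R3 A1 A2 : Z4 → ℝ} {n : ℝ} (hn : 18 ≤ n)
    (cH : ContDiff ℝ 1 Hh) (cRH : ContDiff ℝ 1 RH) (cR3 : ContDiff ℝ 1 R3)
    (cA1 : ContDiff ℝ 1 A1) (cA2 : ContDiff ℝ 1 A2)
    (hind : ∀ σ x y ζ, Hh (σ, x, y, ζ) = Hh (σ, x, y, 0))
    (chain : ∀ (σ : ℝ) (X : ℝ → E3) (s : Set ℝ) (t c : ℝ),
      HasDerivWithinAt X (-9 * (X t).2.1 + σ ^ 2 * A1 (σ, X t),
        9 * (X t).1 + σ ^ 2 * A2 (σ, X t), c) s t →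
      HasDerivWithinAt (fun t => qq (X t) + σ ^ 2 * Hh (σ, X t))
        (σ ^ 8 * (GG n (qq (X t) + σ ^ 2 * Hh (σ, X t)) + σ * RH (σ, X t))) s t) :
    ∀ᶠ σ in 𝓝[>] (0 : ℝ), ∃ S : Sys, (∀ p, S.F1 p = -9 * p.2.1 + σ ^ 2 * A1 (σ, p)) ∧
      (∀ p, S.F2 p = 9 * p.1 + σ ^ 2 * A2 (σ, p)) ∧
      ∀ p, S.F3 p = -18 * p.2.2 + σ * R3 (σ, p) := by
  have cq : ContDiff ℝ 1 fun z : Z4 => qq z.2 := by unfold qq; fun_prop
  set T : Z4 → ℝ := fun z => (z.2.1 * A2 z - z.2.2.1 * A1 z) / qq z.2 with hT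
  have cT : ∀ z : Z4, z.2 ∈ K0 → ContDiffAt ℝ 1 T z := fun z hz =>
    ContDiffAt.div (by fun_prop) cq.contDiffAt (by linarith [hz.1])
  obtain ⟨CT, hCT0, hCT⟩ := bdd_of_compact (isCompact_K1 1)
    (fun z hz => (cT z hz.2).continuousAt.continuousWithinAt)
  obtain ⟨CH, -, hCH⟩ := bdd_of_compact (isCompact_K1 1) cH.continuous.continuousOn
  obtain ⟨CR, -, hCR⟩ := bdd_of_compact (isCompact_K1 1) cRH.continuous.continuousOn
  obtain ⟨C3, -, hC3⟩ := bdd_of_compact (isCompact_K1 1) cR3.continuous.continuousOn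
  obtain ⟨LH, hLH0, hLH⟩ := lip_of_compact (isCompact_K1 1) fun z _ => cH.contDiffAt (x := z)
  obtain ⟨σ₁, hσ₁, hσ₁', hσ₁0⟩ := ((ev_small CT one_pos).and ((ev_small 1 one_pos).and
    self_mem_nhdsWithin)).exists
  rw [mul_one] at hσ₁'
  have hsub : ∀ z ∈ Icc (0 : ℝ) σ₁ ×ˢ K0, z ∈ Icc (0 : ℝ) 1 ×ˢ K0 := fun z hz =>
    ⟨⟨hz.1.1, hz.1.2.trans hσ₁'⟩, hz.2⟩
  have hTh : ∀ z ∈ Icc (0 : ℝ) σ₁ ×ˢ K0, 8 ≤ 9 + z.1 ^ 2 * T z := fun z hz => by
    have h1 := (abs_le.1 (hCT z (hsub z hz))).1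
    have h2 := hz.1.1
    have h3 := hz.1.2
    have h4 : z.1 * CT ≤ 1 := (mul_le_mul_of_nonneg_right h3 hCT0.le).trans hσ₁
    have h5 : z.1 * (z.1 * CT) ≤ 1 := mul_le_one₀ (h3.trans hσ₁') (by positivity) h4
    nlinarith [mul_le_mul_of_nonneg_left h1 (sq_nonneg z.1)]
  set U : Z4 → ℝ := fun z => (9 * RH z - z.1 * GG n (qq z.2 + z.1 ^ 2 * Hh z) * T z) /
    (9 * (9 + z.1 ^ 2 * T z)) with hU
  set W : Z4 → ℝ := fun z => (R3 z + 2 * z.1 * z.2.2.2 * T z) / (9 + z.1 ^ 2 * T z) with hW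
  obtain ⟨LU, hLU0, hLU⟩ := lip_of_compact (isCompact_K1 σ₁) (f := U) fun z hz => by
    have h1 := cT z hz.2
    have h2 := hTh z hz
    refine ContDiffAt.div ?_ (by fun_prop) (by linarith)
    unfold GG
    fun_prop
  obtain ⟨LW, hLW0, hLW⟩ := lip_of_compact (isCompact_K1 σ₁) (f := W) fun z hz => by
    have h1 := cT z hz.2
    have h2 := hTh z hz
    exact ContDiffAt.div (by fun_prop) (by fun_prop) (by linarith)
  filter_upwards [ev_small 1 hσ₁0, self_mem_nhdsWithin, ev_small CH (show (0 : ℝ) < 1 / 2 by norm_num),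
    ev_small CR one_pos, ev_small C3 one_pos, ev_small LH one_pos, ev_small LU one_pos,
    ev_small LW one_pos] with σ h1 h0 hH hR h3 hLH1 hLU1 hLW1
  rw [mul_one] at h1
  have h0' : 0 < σ := h0
  have hσ1 : σ ≤ 1 := h1.trans hσ₁'
  have hm : ∀ p ∈ K0, (σ, p) ∈ Icc (0 : ℝ) σ₁ ×ˢ K0 := fun p hp => ⟨⟨h0'.le, h1⟩, hp⟩
  have hm1 : ∀ p ∈ K0, (σ, p) ∈ Icc (0 : ℝ) 1 ×ˢ K0 := fun p hp => hsub _ (hm p hp)
  have hsm : ∀ {C c v : ℝ}, σ * C ≤ c → |v| ≤ C → |σ * v| ≤ c := fun h h' => by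
    rw [abs_mul, abs_of_pos h0']
    exact (mul_le_mul_of_nonneg_left h' h0'.le).trans h
  have hsm1 : ∀ {c v : ℝ}, |v| ≤ c → |σ * v| ≤ c := fun h => by
    rw [abs_mul, abs_of_pos h0']
    exact (mul_le_of_le_one_left (abs_nonneg _) hσ1).trans h
  have hk : 0 < σ ^ 8 := by positivity
  have hk1 : σ ^ 8 ≤ 1 := pow_le_one₀ h0'.le hσ1
  have hThe : ∀ p ∈ K0, (p.1 * (9 * p.1 + σ ^ 2 * A2 (σ, p)) -
      p.2.1 * (-9 * p.2.1 + σ ^ 2 * A1 (σ, p))) / qq p = 9 + σ ^ 2 * T (σ, p) := fun p hp => by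
    have h : qq p ≠ 0 := by linarith [hp.1]
    simp only [hT]
    field_simp
    unfold qq
    ring
  have hdd : ∀ p ∈ K0, ∀ p' ∈ K0, ∀ φ, ray p φ → ray p' φ → dist p p' ^ 2 ≤
      (qq p + σ ^ 2 * Hh (σ, p) - (qq p' + σ ^ 2 * Hh (σ, p'))) ^ 2 + (p.2.2 - p'.2.2) ^ 2 := by
    intro p hp p' hp' φ hr hr'
    obtain ⟨d1, d2⟩ := dist_ray hr hr'
    have hρ : 1 ≤ √(qq p) := Real.one_le_sqrt.2 (by linarith [hp.1])
    have hρ' : 1 ≤ √(qq p') := Real.one_le_sqrt.2 (by linarith [hp'.1])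
    have e1 : qq p = √(qq p) ^ 2 := (Real.sq_sqrt (by linarith [hp.1])).symm
    have e2 : qq p' = √(qq p') ^ 2 := (Real.sq_sqrt (by linarith [hp'.1])).symm
    set ρ := √(qq p)
    set ρ' := √(qq p')
    have h4 : |Hh (σ, p) - Hh (σ, p')| ≤ LH * |ρ - ρ'| := by
      have h5 := hLH (σ, p.1, p.2.1, 0) (hm1 _ ⟨hp.1, hp.2.1, by norm_num, by norm_num⟩)
        (σ, p'.1, p'.2.1, 0) (hm1 _ ⟨hp'.1, hp'.2.1, by norm_num, by norm_num⟩)
      rw [← hind σ p.1 p.2.1 p.2.2, ← hind σ p'.1 p'.2.1 p'.2.2] at h5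
      refine h5.trans (mul_le_mul_of_nonneg_left ?_ hLH0.le)
      simp only [Prod.dist_eq, Real.dist_eq, dist_self]
      exact max_le (abs_nonneg _) (max_le d1 (max_le d2 (abs_nonneg _)))
    have h6 : |σ * (σ * (Hh (σ, p) - Hh (σ, p')))| ≤ |ρ - ρ'| := by
      refine hsm1 (hsm ?_ h4)
      rw [← mul_assoc]
      exact mul_le_of_le_one_left (abs_nonneg _) hLH1
    have h7 : 2 * |ρ - ρ'| ≤ |qq p - qq p'| := by
      rw [e1, e2, show ρ ^ 2 - ρ' ^ 2 = (ρ + ρ') * (ρ - ρ') by ring, abs_mul,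
        abs_of_pos (show 0 < ρ + ρ' by linarith)]
      exact mul_le_mul_of_nonneg_right (by linarith) (abs_nonneg _)
    set a := qq p + σ ^ 2 * Hh (σ, p) - (qq p' + σ ^ 2 * Hh (σ, p')) with ha
    have h8 : |ρ - ρ'| ≤ |a| := by
      have h9 : qq p - qq p' = a - σ * (σ * (Hh (σ, p) - Hh (σ, p'))) := by rw [ha]; ring
      have h10 := abs_sub a (σ * (σ * (Hh (σ, p) - Hh (σ, p'))))
      rw [← h9] at h10
      linarith
    have h11 : dist p p' ≤ √(a ^ 2 + (p.2.2 - p'.2.2) ^ 2) := by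
      have h12 : |a| ≤ √(a ^ 2 + (p.2.2 - p'.2.2) ^ 2) :=
        Real.abs_le_sqrt (by nlinarith [sq_nonneg (p.2.2 - p'.2.2)])
      have h13 : |p.2.2 - p'.2.2| ≤ √(a ^ 2 + (p.2.2 - p'.2.2) ^ 2) :=
        Real.abs_le_sqrt (by nlinarith [sq_nonneg a])
      simp only [Prod.dist_eq, Real.dist_eq]
      exact max_le (by linarith) (max_le (by linarith) h13)
    calc _ ≤ √(a ^ 2 + (p.2.2 - p'.2.2) ^ 2) ^ 2 := pow_le_pow_left₀ dist_nonneg h11 2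
      _ = _ := Real.sq_sqrt (by positivity)
  refine ⟨{
    F1 := fun p => -9 * p.2.1 + σ ^ 2 * A1 (σ, p)
    F2 := fun p => 9 * p.1 + σ ^ 2 * A2 (σ, p)
    F3 := fun p => -18 * p.2.2 + σ * R3 (σ, p)
    H := fun p => qq p + σ ^ 2 * Hh (σ, p)
    dH := fun p => σ ^ 8 * (GG n (qq p + σ ^ 2 * Hh (σ, p)) + σ * RH (σ, p))
    Th := fun p => (p.1 * (9 * p.1 + σ ^ 2 * A2 (σ, p)) -
      p.2.1 * (-9 * p.2.1 + σ ^ 2 * A1 (σ, p))) / qq p
    k := σ ^ 8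
    cF1 := by have := cA1.continuous; fun_prop
    cF2 := by have := cA2.continuous; fun_prop
    cH := by have := cH.continuous; fun_prop
    chain := fun X s t h => chain σ X s t _ h
    Th_eq := fun _ => rfl
    kpos := hk
    Hq := fun p hp => ?_
    up := fun p hp h4 h5 => ?_
    down := fun p hp h4 h5 => ?_
    zup := fun p hp h4 => ?_
    zdown := fun p hp h4 => ?_
    th := fun p hp => ?_
    contr := fun p hp p' hp' φ hr hr' h4 h5 => ?_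
    dist_le := fun p hp p' hp' φ hr hr' => ?_ }, fun _ => rfl, fun _ => rfl, fun _ => rfl⟩
  · rw [add_sub_cancel_left, pow_two, mul_assoc]
    exact hsm1 (hsm hH (hCH _ (hm1 p hp)))
  · have h6 := abs_le.1 (hsm hR (hCR _ (hm1 p hp)))
    refine mul_neg_of_pos_of_neg hk ?_
    set h := qq p + σ ^ 2 * Hh (σ, p)
    have h7 : 1 ≤ h * (h - 1) * (h - 4) := by
      have h9 : 2 ≤ h * (h - 1) := by nlinarith
      nlinarith
    have h8 : GG n h = -(n * (h * (h - 1) * (h - 4))) := by unfold GG; ring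
    nlinarith
  · have h6 := abs_le.1 (hsm hR (hCR _ (hm1 p hp)))
    refine mul_pos hk ?_
    set h := qq p + σ ^ 2 * Hh (σ, p)
    have h7 : 1 ≤ h * (h - 1) * (4 - h) := by
      have h9 : 2 ≤ h * (h - 1) := by nlinarith
      nlinarith
    have h8 : GG n h = n * (h * (h - 1) * (4 - h)) := by unfold GG; ring
    nlinarith
  · have h6 := abs_le.1 (hsm h3 (hC3 _ (hm1 p hp)))
    linarith [h6.2]
  · have h6 := abs_le.1 (hsm h3 (hC3 _ (hm1 p hp)))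
    linarith [h6.1]
  · rw [hThe p hp]
    linarith [hTh _ (hm p hp)]
  · rw [hThe p hp, hThe p' hp']
    have t1 := hTh _ (hm p hp)
    have t2 := hTh _ (hm p' hp')
    have e1 : ∀ p ∈ K0, σ ^ 8 * (GG n (qq p + σ ^ 2 * Hh (σ, p)) + σ * RH (σ, p)) /
        (9 + σ ^ 2 * T (σ, p)) =
        σ ^ 8 * (GG n (qq p + σ ^ 2 * Hh (σ, p)) / 9 + σ * U (σ, p)) := fun p hp => by
      have t1 : 9 + σ ^ 2 * T (σ, p) ≠ 0 := by linarith [hTh _ (hm p hp)]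
      simp only [hU]
      field_simp
      ring
    have e2 : ∀ p ∈ K0, (-18 * p.2.2 + σ * R3 (σ, p)) / (9 + σ ^ 2 * T (σ, p)) =
        -2 * p.2.2 + σ * W (σ, p) := fun p hp => by
      have t1 : 9 + σ ^ 2 * T (σ, p) ≠ 0 := by linarith [hTh _ (hm p hp)]
      simp only [hW]
      field_simp
      ring
    rw [e1 p hp, e1 p' hp', e2 p hp, e2 p' hp']
    have hd := hdd p hp p' hp' φ hr hr'
    have hdist : dist (σ, p) (σ, p') = dist p p' := by simp [Prod.dist_eq]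
    have hU1 : |σ * (U (σ, p) - U (σ, p'))| ≤ dist p p' := by
      refine hsm ?_ (hLU _ (hm p hp) _ (hm p' hp'))
      rw [hdist, ← mul_assoc]
      exact mul_le_of_le_one_left dist_nonneg hLU1
    have hW1 : |σ * (W (σ, p) - W (σ, p'))| ≤ dist p p' := by
      refine hsm ?_ (hLW _ (hm p hp) _ (hm p' hp'))
      rw [hdist, ← mul_assoc]
      exact mul_le_of_le_one_left dist_nonneg hLW1
    set h := qq p + σ ^ 2 * Hh (σ, p)
    set h' := qq p' + σ ^ 2 * Hh (σ, p')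
    have hm1 : 1 ≤ h ^ 2 + h * h' + h' ^ 2 - 5 * (h + h') + 4 := by
      nlinarith [mul_nonneg (sub_nonneg.2 h4) (sub_nonneg.2 h5), sq_nonneg (h - 3), sq_nonneg (h' - 3)]
    refine le_of_eq_of_le ?_ (contr_aux hk hk1 hn hm1 hd hU1 hW1)
    unfold GG
    ring
  · have hd := hdd p hp p' hp' φ hr hr'
    nlinarith [mul_le_mul_of_nonneg_left hd hk.le, mul_nonneg (sub_nonneg.2 hk1)
      (sq_nonneg (qq p + σ ^ 2 * Hh (σ, p) - (qq p' + σ ^ 2 * Hh (σ, p'))))]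

end Pool.Agent.MP_51358b_an

end

-- part MP_51358b_an.Poly
section

/-!
Normal-form polynomials and the order-by-order identities.
-/

namespace Pool.Agent.MP_51358b_an

open Set Filter Topology

noncomputable def ev : List (ℕ × ℕ × ℝ) → ℝ → ℝ → ℝ
  | [], _, _ => 0
  | (i, j, c) :: l, x, y => c * x ^ i * y ^ j + ev l x y

noncomputable def evx : List (ℕ × ℕ × ℝ) → ℝ → ℝ → ℝ
  | [], _, _ => 0
  | (i, j, c) :: l, x, y => c * (i * x ^ (i - 1)) * y ^ j + evx l x y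

noncomputable def evy : List (ℕ × ℕ × ℝ) → ℝ → ℝ → ℝ
  | [], _, _ => 0
  | (i, j, c) :: l, x, y => c * x ^ i * (j * y ^ (j - 1)) + evy l x y

lemma ev_deriv (l : List (ℕ × ℕ × ℝ)) {x y : ℝ → ℝ} {x' y' t : ℝ} {s : Set ℝ}
    (hx : HasDerivWithinAt x x' s t) (hy : HasDerivWithinAt y y' s t) :
    HasDerivWithinAt (fun t => ev l (x t) (y t))
      (evx l (x t) (y t) * x' + evy l (x t) (y t) * y') s t := by
  induction l with
  | nil => simpa [ev, evx, evy] using hasDerivWithinAt_const t s (0 : ℝ)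
  | cons a l ih =>
    obtain ⟨i, j, c⟩ := a
    simp only [ev, evx, evy]
    refine (((((hx.fun_pow i).const_mul c).fun_mul (hy.fun_pow j))).fun_add ih).congr_deriv ?_
    ring

@[fun_prop] lemma ev_contDiff (l : List (ℕ × ℕ × ℝ)) {f g : Z4 → ℝ} (hf : ContDiff ℝ 1 f)
    (hg : ContDiff ℝ 1 g) : ContDiff ℝ 1 fun z => ev l (f z) (g z) := by
  induction l with
  | nil => simpa [ev] using contDiff_const
  | cons a l ih =>
    obtain ⟨i, j, c⟩ := a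
    simp only [ev]
    fun_prop

@[fun_prop] lemma evx_contDiff (l : List (ℕ × ℕ × ℝ)) {f g : Z4 → ℝ} (hf : ContDiff ℝ 1 f)
    (hg : ContDiff ℝ 1 g) : ContDiff ℝ 1 fun z => evx l (f z) (g z) := by
  induction l with
  | nil => simpa [evx] using contDiff_const
  | cons a l ih =>
    obtain ⟨i, j, c⟩ := a
    simp only [evx]
    fun_prop

@[fun_prop] lemma evy_contDiff (l : List (ℕ × ℕ × ℝ)) {f g : Z4 → ℝ} (hf : ContDiff ℝ 1 f)
    (hg : ContDiff ℝ 1 g) : ContDiff ℝ 1 fun z => evy l (f z) (g z) := by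
  induction l with
  | nil => simpa [evy] using contDiff_const
  | cons a l ih =>
    obtain ⟨i, j, c⟩ := a
    simp only [evy]
    fun_prop

noncomputable def lh0 : List (ℕ × ℕ × ℝ) :=
  [(0, 2, (752 / 27 : ℝ)),
    (1, 1, (-1504 / 27 : ℝ)),
    (2, 0, (-188 / 9 : ℝ))]

noncomputable def lh1 : List (ℕ × ℕ × ℝ) :=
  [(0, 3, (10801015856 / 2606175 : ℝ)),
    (1, 2, (-1199585888 / 236925 : ℝ)),
    (2, 1, (34254036536 / 2606175 : ℝ)),
    (3, 0, (-1678406096 / 868725 : ℝ))]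

noncomputable def lh2 : List (ℕ × ℕ × ℝ) :=
  [(0, 2, (-41080132707073814228 / 92247517855935 : ℝ)),
    (0, 4, (104350312065268 / 3870169875 : ℝ)),
    (1, 1, (82160265414147628456 / 6149834523729 : ℝ)),
    (1, 3, (-410829376651256 / 297705375 : ℝ)),
    (2, 0, (-41080132707073814228 / 30749172618645 : ℝ)),
    (2, 2, (2387431214066992 / 1290056625 : ℝ)),
    (3, 1, (-8076105286897976 / 3870169875 : ℝ)),
    (4, 0, (512253818874796 / 430018875 : ℝ))]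

noncomputable def lH1 : List (ℕ × ℕ × ℝ) :=
  [(0, 3, (24572 / 405 : ℝ)),
    (1, 2, (-7136 / 135 : ℝ)),
    (2, 1, (1092 / 5 : ℝ)),
    (3, 0, (-4136 / 135 : ℝ))]

noncomputable def lH2 : List (ℕ × ℕ × ℝ) :=
  [(0, 4, (-317527168 / 13365 : ℝ)),
    (1, 3, (-83719552 / 6075 : ℝ)),
    (2, 2, (-51328468 / 8019 : ℝ)),
    (3, 1, (-960989264 / 22275 : ℝ))]

noncomputable def lH3 : List (ℕ × ℕ × ℝ) :=
  [(0, 3, (-1314564246626362055296 / 276742553567805 : ℝ)),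
    (0, 5, (-19905142774609792 / 3870169875 : ℝ)),
    (1, 4, (6158519268928 / 27064125 : ℝ)),
    (2, 1, (-657282123313181027648 / 30749172618645 : ℝ)),
    (2, 3, (-39407510474791424 / 3870169875 : ℝ)),
    (3, 0, (5258256986505448221184 / 276742553567805 : ℝ)),
    (3, 2, (-141877742517717088 / 11610509625 : ℝ)),
    (4, 1, (479854637004544 / 430018875 : ℝ)),
    (5, 0, (-74191926230672608 / 11610509625 : ℝ))]

noncomputable def lH4 : List (ℕ × ℕ × ℝ) :=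
  [(0, 4, (1222241660143403920823905816 / 269823989728609875 : ℝ)),
    (0, 6, (-585208493555147103496 / 522472933125 : ℝ)),
    (1, 1, (164320530828295256912 / 142492618125 : ℝ)),
    (1, 3, (-1638297505908571167607995068 / 684937820080317375 : ℝ)),
    (1, 5, (1737323146793664545356 / 1567418799375 : ℝ)),
    (2, 2, (69618803905736840348645345728 / 8904191661044125875 : ℝ)),
    (2, 4, (-9576408866609468192008 / 1915734088125 : ℝ)),
    (3, 1, (-19076672606565158387620679204 / 8904191661044125875 : ℝ)),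
    (3, 3, (2385182429251896716272 / 3978832336875 : ℝ)),
    (4, 2, (-36392014423063648849856 / 17241606793125 : ℝ)),
    (5, 1, (-7083570279542401163812 / 3448321358625 : ℝ))]

noncomputable def nu : ℝ := (82160265414147628456 / 17842112507115 : ℝ)

noncomputable def de : ℝ := (164320530828295256912 / 15832513125 : ℝ)

noncomputable def n3 : ℝ := (41080132707073814228 / 15832513125 : ℝ)

noncomputable def s0 (x y : ℝ) : ℝ := (14 / 5 : ℝ) * x + (16 / 5 : ℝ) * y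

noncomputable def g3 : ℝ := (58 / 5 : ℝ)

noncomputable def b1 (x y : ℝ) : ℝ := (351 : ℝ) * x + (-350 : ℝ) * y

noncomputable def be1 : ℝ := (7805 / 11 : ℝ)

noncomputable def b2 (x y : ℝ) : ℝ := (-220 / 3 : ℝ) * x + (223 / 3 : ℝ) * y

noncomputable def be2 : ℝ := (-446 / 3 : ℝ)

noncomputable def b3 (x y : ℝ) : ℝ := (940 / 3 : ℝ) * x + (-940 / 3 : ℝ) * y

noncomputable def be3 : ℝ := (20995 / 33 : ℝ)

/-- Coefficients of `-S * B` in powers of `σ ^ 2`. -/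
noncomputable def c0 (B : ℝ → ℝ → ℝ) (x y : ℝ) : ℝ := -(s0 x y * B x y)

noncomputable def c1 (B : ℝ → ℝ → ℝ) (β x y : ℝ) : ℝ :=
  -(s0 x y * (β * ev lh0 x y) + g3 * ev lh0 x y * B x y)

noncomputable def c2 (B : ℝ → ℝ → ℝ) (β x y : ℝ) : ℝ :=
  -(s0 x y * (β * ev lh1 x y) + g3 * ev lh0 x y * (β * ev lh0 x y) + g3 * ev lh1 x y * B x y)

noncomputable def c3 (B : ℝ → ℝ → ℝ) (β x y : ℝ) : ℝ :=
  -(s0 x y * (β * ev lh2 x y) + g3 * ev lh0 x y * (β * ev lh1 x y) +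
    g3 * ev lh1 x y * (β * ev lh0 x y) + (g3 * ev lh2 x y + nu * ev lh0 x y) * B x y)

noncomputable def DD (l : List (ℕ × ℕ × ℝ)) (x y : ℝ) : ℝ := -9 * y * evx l x y + 9 * x * evy l x y

set_option linter.unusedSimpArgs false

lemma id0 (x y : ℝ) : -18 * ev lh0 x y + c0 b3 x y - DD lh0 x y = 0 := by
  simp only [DD, c0, c1, c2, c3, s0, g3, b1, b2, b3, be1, be2, be3, nu, de, n3, GG, ev, evx, evy,
    lh0, lh1, lh2, lH1, lH2, lH3, lH4, Nat.cast_ofNat, Nat.cast_one, Nat.cast_zero,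
    Nat.reduceSub]
  ring

lemma id1 (x y : ℝ) : -18 * ev lh1 x y + c1 b3 be3 x y - DD lh1 x y -
    (evx lh0 x y * c0 b1 x y + evy lh0 x y * c0 b2 x y) = 0 := by
  simp only [DD, c0, c1, c2, c3, s0, g3, b1, b2, b3, be1, be2, be3, nu, de, n3, GG, ev, evx, evy,
    lh0, lh1, lh2, lH1, lH2, lH3, lH4, Nat.cast_ofNat, Nat.cast_one, Nat.cast_zero,
    Nat.reduceSub]
  ring

lemma id2 (x y : ℝ) : -18 * ev lh2 x y + (c2 b3 be3 x y - nu * ev lh0 x y) - DD lh2 x y -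
    (evx lh0 x y * c1 b1 be1 x y + evx lh1 x y * c0 b1 x y +
      (evy lh0 x y * c1 b2 be2 x y + evy lh1 x y * c0 b2 x y)) = 0 := by
  simp only [DD, c0, c1, c2, c3, s0, g3, b1, b2, b3, be1, be2, be3, nu, de, n3, GG, ev, evx, evy,
    lh0, lh1, lh2, lH1, lH2, lH3, lH4, Nat.cast_ofNat, Nat.cast_one, Nat.cast_zero,
    Nat.reduceSub]
  ring

lemma idH1 (x y : ℝ) : DD lH1 x y + (2 * x * c0 b1 x y + 2 * y * c0 b2 x y) = 0 := by
  simp only [DD, c0, c1, c2, c3, s0, g3, b1, b2, b3, be1, be2, be3, nu, de, n3, GG, ev, evx, evy,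
    lh0, lh1, lh2, lH1, lH2, lH3, lH4, Nat.cast_ofNat, Nat.cast_one, Nat.cast_zero,
    Nat.reduceSub]
  ring

lemma idH2 (x y : ℝ) : DD lH2 x y + (2 * x * c1 b1 be1 x y + evx lH1 x y * c0 b1 x y +
    (2 * y * c1 b2 be2 x y + evy lH1 x y * c0 b2 x y)) = 0 := by
  simp only [DD, c0, c1, c2, c3, s0, g3, b1, b2, b3, be1, be2, be3, nu, de, n3, GG, ev, evx, evy,
    lh0, lh1, lh2, lH1, lH2, lH3, lH4, Nat.cast_ofNat, Nat.cast_one, Nat.cast_zero,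
    Nat.reduceSub]
  ring

lemma idH3 (x y : ℝ) : DD lH3 x y + (2 * x * (c2 b1 be1 x y - nu * ev lh0 x y) +
    evx lH1 x y * c1 b1 be1 x y + evx lH2 x y * c0 b1 x y +
    (2 * y * c2 b2 be2 x y + evy lH1 x y * c1 b2 be2 x y + evy lH2 x y * c0 b2 x y)) = 0 := by
  simp only [DD, c0, c1, c2, c3, s0, g3, b1, b2, b3, be1, be2, be3, nu, de, n3, GG, ev, evx, evy,
    lh0, lh1, lh2, lH1, lH2, lH3, lH4, Nat.cast_ofNat, Nat.cast_one, Nat.cast_zero,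
    Nat.reduceSub]
  ring

lemma idH4 (x y : ℝ) : DD lH4 x y + (2 * x * (c3 b1 be1 x y - (nu * ev lh1 x y + de * x)) +
    evx lH1 x y * (c2 b1 be1 x y - nu * ev lh0 x y) + evx lH2 x y * c1 b1 be1 x y +
    evx lH3 x y * c0 b1 x y +
    (2 * y * c3 b2 be2 x y + evy lH1 x y * c2 b2 be2 x y + evy lH2 x y * c1 b2 be2 x y +
      evy lH3 x y * c0 b2 x y)) = GG n3 (x ^ 2 + y ^ 2) := by
  simp only [DD, c0, c1, c2, c3, s0, g3, b1, b2, b3, be1, be2, be3, nu, de, n3, GG, ev, evx, evy,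
    lh0, lh1, lh2, lH1, lH2, lH3, lH4, Nat.cast_ofNat, Nat.cast_one, Nat.cast_zero,
    Nat.reduceSub]
  ring

end Pool.Agent.MP_51358b_an

end

-- part MP_51358b_an.Alg
section

/-!
Truncated expansions in `σ` with smooth remainders; the scaled system.
-/

namespace Pool.Agent.MP_51358b_an

open Set Filter Topology

def Ser (f a0 a1 a2 a3 : Z4 → ℝ) : Prop :=
  ContDiff ℝ 1 a0 ∧ ContDiff ℝ 1 a1 ∧ ContDiff ℝ 1 a2 ∧ ContDiff ℝ 1 a3 ∧
    ∃ r : Z4 → ℝ, ContDiff ℝ 1 r ∧ ∀ z, f z =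
      a0 z + z.1 ^ 2 * a1 z + z.1 ^ 4 * a2 z + z.1 ^ 6 * a3 z + z.1 ^ 7 * r z

lemma Ser.mul {f a0 a1 a2 a3 g b0 b1 b2 b3 : Z4 → ℝ} (hf : Ser f a0 a1 a2 a3)
    (hg : Ser g b0 b1 b2 b3) :
    Ser (fun z => f z * g z) (fun z => a0 z * b0 z) (fun z => a0 z * b1 z + a1 z * b0 z)
      (fun z => a0 z * b2 z + a1 z * b1 z + a2 z * b0 z)
      (fun z => a0 z * b3 z + a1 z * b2 z + a2 z * b1 z + a3 z * b0 z) := by
  obtain ⟨h0, h1, h2, h3, r, hr, hf⟩ := hf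
  obtain ⟨k0, k1, k2, k3, s, hs, hg⟩ := hg
  refine ⟨by fun_prop, by fun_prop, by fun_prop, by fun_prop,
    fun z => z.1 * (a1 z * b3 z + a2 z * b2 z + a3 z * b1 z) + z.1 ^ 3 * (a2 z * b3 z + a3 z * b2 z) +
      z.1 ^ 5 * (a3 z * b3 z) +
      r z * (b0 z + z.1 ^ 2 * b1 z + z.1 ^ 4 * b2 z + z.1 ^ 6 * b3 z + z.1 ^ 7 * s z) +
      (a0 z + z.1 ^ 2 * a1 z + z.1 ^ 4 * a2 z + z.1 ^ 6 * a3 z) * s z, by fun_prop, fun z => ?_⟩
  simp only [hf, hg]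
  ring

lemma Ser.add {f a0 a1 a2 a3 g b0 b1 b2 b3 : Z4 → ℝ} (hf : Ser f a0 a1 a2 a3)
    (hg : Ser g b0 b1 b2 b3) :
    Ser (fun z => f z + g z) (fun z => a0 z + b0 z) (fun z => a1 z + b1 z)
      (fun z => a2 z + b2 z) (fun z => a3 z + b3 z) := by
  obtain ⟨h0, h1, h2, h3, r, hr, hf⟩ := hf
  obtain ⟨k0, k1, k2, k3, s, hs, hg⟩ := hg
  refine ⟨by fun_prop, by fun_prop, by fun_prop, by fun_prop,
    fun z => r z + s z, by fun_prop, fun z => ?_⟩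
  simp only [hf, hg]
  ring

lemma Ser.neg {f a0 a1 a2 a3 : Z4 → ℝ} (hf : Ser f a0 a1 a2 a3) :
    Ser (fun z => -f z) (fun z => -a0 z) (fun z => -a1 z) (fun z => -a2 z) (fun z => -a3 z) := by
  obtain ⟨h0, h1, h2, h3, r, hr, hf⟩ := hf
  refine ⟨by fun_prop, by fun_prop, by fun_prop, by fun_prop,
    fun z => -r z, by fun_prop, fun z => ?_⟩
  simp only [hf]
  ring

lemma Ser.contDiff {f a0 a1 a2 a3 : Z4 → ℝ} (hf : Ser f a0 a1 a2 a3) : ContDiff ℝ 1 f := by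
  obtain ⟨h0, h1, h2, h3, r, hr, hf⟩ := hf
  rw [funext hf]
  fun_prop

noncomputable def hh (σ x y : ℝ) : ℝ := ev lh0 x y + σ ^ 2 * ev lh1 x y + σ ^ 4 * ev lh2 x y

noncomputable def hhx (σ x y : ℝ) : ℝ := evx lh0 x y + σ ^ 2 * evx lh1 x y + σ ^ 4 * evx lh2 x y

noncomputable def hhy (σ x y : ℝ) : ℝ := evy lh0 x y + σ ^ 2 * evy lh1 x y + σ ^ 4 * evy lh2 x y

noncomputable def WW (z : Z4) : ℝ := hh z.1 z.2.1 z.2.2.1 + z.1 ^ 5 * z.2.2.2

noncomputable def SS (z : Z4) : ℝ :=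
  s0 z.2.1 z.2.2.1 + z.1 ^ 2 * g3 * WW z + z.1 ^ 6 * nu * WW z + z.1 ^ 8 * de * z.2.1

noncomputable def BB (B : ℝ → ℝ → ℝ) (β : ℝ) (z : Z4) : ℝ :=
  B z.2.1 z.2.2.1 + z.1 ^ 2 * β * WW z

noncomputable def LL (z : Z4) : ℝ := z.1 ^ 4 * nu * WW z + z.1 ^ 6 * de * z.2.1

noncomputable def A1 (z : Z4) : ℝ := -(SS z * BB b1 be1 z) + -LL z

noncomputable def A2 (z : Z4) : ℝ := -(SS z * BB b2 be2 z)

noncomputable def A3 (z : Z4) : ℝ := -(SS z * BB b3 be3 z) + -LL z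

noncomputable def Hh (z : Z4) : ℝ :=
  ev lH1 z.2.1 z.2.2.1 + z.1 ^ 2 * ev lH2 z.2.1 z.2.2.1 + z.1 ^ 4 * ev lH3 z.2.1 z.2.2.1 +
    z.1 ^ 6 * ev lH4 z.2.1 z.2.2.1

noncomputable def Hx (z : Z4) : ℝ :=
  2 * z.2.1 + z.1 ^ 2 * (evx lH1 z.2.1 z.2.2.1 + z.1 ^ 2 * evx lH2 z.2.1 z.2.2.1 +
    z.1 ^ 4 * evx lH3 z.2.1 z.2.2.1 + z.1 ^ 6 * evx lH4 z.2.1 z.2.2.1)

noncomputable def Hy (z : Z4) : ℝ :=
  2 * z.2.2.1 + z.1 ^ 2 * (evy lH1 z.2.1 z.2.2.1 + z.1 ^ 2 * evy lH2 z.2.1 z.2.2.1 +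
    z.1 ^ 4 * evy lH3 z.2.1 z.2.2.1 + z.1 ^ 6 * evy lH4 z.2.1 z.2.2.1)

lemma contDiff_Hh : ContDiff ℝ 1 Hh := by unfold Hh; fun_prop

lemma contDiff_WW : ContDiff ℝ 1 WW := by unfold WW hh; fun_prop

lemma ser_S : Ser SS (fun z => s0 z.2.1 z.2.2.1) (fun z => g3 * ev lh0 z.2.1 z.2.2.1)
    (fun z => g3 * ev lh1 z.2.1 z.2.2.1)
    (fun z => g3 * ev lh2 z.2.1 z.2.2.1 + nu * ev lh0 z.2.1 z.2.2.1) := by
  refine ⟨by unfold s0; fun_prop, by fun_prop, by fun_prop, by fun_prop,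
    fun z => g3 * z.2.2.2 + z.1 * (nu * (ev lh1 z.2.1 z.2.2.1 + z.1 ^ 2 * ev lh2 z.2.1 z.2.2.1 +
      z.1 ^ 3 * z.2.2.2) + de * z.2.1), by fun_prop, fun z => ?_⟩
  simp only [SS, WW, hh]
  ring

lemma ser_B {B : ℝ → ℝ → ℝ} (hB : ContDiff ℝ 1 fun z : Z4 => B z.2.1 z.2.2.1) (β : ℝ) :
    Ser (BB B β) (fun z => B z.2.1 z.2.2.1) (fun z => β * ev lh0 z.2.1 z.2.2.1)
      (fun z => β * ev lh1 z.2.1 z.2.2.1) (fun z => β * ev lh2 z.2.1 z.2.2.1) := by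
  refine ⟨hB, by fun_prop, by fun_prop, by fun_prop,
    fun z => β * z.2.2.2, by fun_prop, fun z => ?_⟩
  simp only [BB, WW, hh]
  ring

lemma ser_SB {B : ℝ → ℝ → ℝ} (hB : ContDiff ℝ 1 fun z : Z4 => B z.2.1 z.2.2.1) (β : ℝ) :
    Ser (fun z => -(SS z * BB B β z)) (fun z => c0 B z.2.1 z.2.2.1) (fun z => c1 B β z.2.1 z.2.2.1)
      (fun z => c2 B β z.2.1 z.2.2.1) (fun z => c3 B β z.2.1 z.2.2.1) :=
  (ser_S.mul (ser_B hB β)).neg

lemma ser_L : Ser LL (fun _ => 0) (fun _ => 0) (fun z => nu * ev lh0 z.2.1 z.2.2.1)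
    (fun z => nu * ev lh1 z.2.1 z.2.2.1 + de * z.2.1) := by
  refine ⟨by fun_prop, by fun_prop, by fun_prop, by fun_prop,
    fun z => z.1 * nu * ev lh2 z.2.1 z.2.2.1 + z.1 ^ 2 * nu * z.2.2.2, by fun_prop, fun z => ?_⟩
  simp only [LL, WW, hh]
  ring

lemma ser_Hx : Ser Hx (fun z => 2 * z.2.1) (fun z => evx lH1 z.2.1 z.2.2.1)
    (fun z => evx lH2 z.2.1 z.2.2.1) (fun z => evx lH3 z.2.1 z.2.2.1) := by
  refine ⟨by fun_prop, by fun_prop, by fun_prop, by fun_prop,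
    fun z => z.1 * evx lH4 z.2.1 z.2.2.1, by fun_prop, fun z => ?_⟩
  simp only [Hx]
  ring

lemma ser_Hy : Ser Hy (fun z => 2 * z.2.2.1) (fun z => evy lH1 z.2.1 z.2.2.1)
    (fun z => evy lH2 z.2.1 z.2.2.1) (fun z => evy lH3 z.2.1 z.2.2.1) := by
  refine ⟨by fun_prop, by fun_prop, by fun_prop, by fun_prop,
    fun z => z.1 * evy lH4 z.2.1 z.2.2.1, by fun_prop, fun z => ?_⟩
  simp only [Hy]
  ring

lemma ser_hx : Ser (fun z => hhx z.1 z.2.1 z.2.2.1) (fun z => evx lh0 z.2.1 z.2.2.1)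
    (fun z => evx lh1 z.2.1 z.2.2.1) (fun z => evx lh2 z.2.1 z.2.2.1) (fun _ => 0) := by
  refine ⟨by fun_prop, by fun_prop, by fun_prop, by fun_prop,
    fun _ => 0, by fun_prop, fun z => ?_⟩
  simp only [hhx]
  ring

lemma ser_hy : Ser (fun z => hhy z.1 z.2.1 z.2.2.1) (fun z => evy lh0 z.2.1 z.2.2.1)
    (fun z => evy lh1 z.2.1 z.2.2.1) (fun z => evy lh2 z.2.1 z.2.2.1) (fun _ => 0) := by
  refine ⟨by fun_prop, by fun_prop, by fun_prop, by fun_prop,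
    fun _ => 0, by fun_prop, fun z => ?_⟩
  simp only [hhy]
  ring

lemma ser_A1 : Ser A1 (fun z => c0 b1 z.2.1 z.2.2.1 + -0) (fun z => c1 b1 be1 z.2.1 z.2.2.1 + -0)
    (fun z => c2 b1 be1 z.2.1 z.2.2.1 + -(nu * ev lh0 z.2.1 z.2.2.1))
    (fun z => c3 b1 be1 z.2.1 z.2.2.1 + -(nu * ev lh1 z.2.1 z.2.2.1 + de * z.2.1)) :=
  (ser_SB (B := b1) (by unfold b1; fun_prop) be1).add ser_L.neg

lemma ser_A2 : Ser A2 (fun z => c0 b2 z.2.1 z.2.2.1) (fun z => c1 b2 be2 z.2.1 z.2.2.1)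
    (fun z => c2 b2 be2 z.2.1 z.2.2.1) (fun z => c3 b2 be2 z.2.1 z.2.2.1) :=
  ser_SB (B := b2) (by unfold b2; fun_prop) be2

lemma ser_A3 : Ser A3 (fun z => c0 b3 z.2.1 z.2.2.1 + -0) (fun z => c1 b3 be3 z.2.1 z.2.2.1 + -0)
    (fun z => c2 b3 be3 z.2.1 z.2.2.1 + -(nu * ev lh0 z.2.1 z.2.2.1))
    (fun z => c3 b3 be3 z.2.1 z.2.2.1 + -(nu * ev lh1 z.2.1 z.2.2.1 + de * z.2.1)) :=
  (ser_SB (B := b3) (by unfold b3; fun_prop) be3).add ser_L.neg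

lemma exists_R3 : ∃ R3 : Z4 → ℝ, ContDiff ℝ 1 R3 ∧ ∀ z : Z4,
    -18 * WW z + A3 z - (hhx z.1 z.2.1 z.2.2.1 * (-9 * z.2.2.1 + z.1 ^ 2 * A1 z) +
      hhy z.1 z.2.1 z.2.2.1 * (9 * z.2.1 + z.1 ^ 2 * A2 z)) =
      z.1 ^ 5 * (-18 * z.2.2.2 + z.1 * R3 z) := by
  obtain ⟨-, -, -, h3, ra, hra, hA⟩ := ser_A3
  obtain ⟨-, -, k2, k3, rd, hrd, hd⟩ := (ser_hx.mul ser_A1).add (ser_hy.mul ser_A2)
  refine ⟨fun z => _ + z.1 * ra z - _ - z.1 ^ 2 * _ - z.1 ^ 3 * rd z,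
    (((h3.add (contDiff_fst.mul hra)).sub k2).sub ((contDiff_fst.pow 2).mul k3)).sub
      ((contDiff_fst.pow 3).mul hrd), fun z => ?_⟩
  have e1 := hA z
  have e2 := hd z
  have i0 := id0 z.2.1 z.2.2.1
  have i1 := id1 z.2.1 z.2.2.1
  have i2 := id2 z.2.1 z.2.2.1
  simp only [WW, hh, hhx, hhy, DD] at e1 e2 i0 i1 i2 ⊢
  linear_combination e1 - z.1 ^ 2 * e2 + i0 + z.1 ^ 2 * i1 + z.1 ^ 4 * i2

lemma exists_RH : ∃ RH : Z4 → ℝ, ContDiff ℝ 1 RH ∧ ∀ z : Z4,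
    Hx z * (-9 * z.2.2.1 + z.1 ^ 2 * A1 z) + Hy z * (9 * z.2.1 + z.1 ^ 2 * A2 z) =
      z.1 ^ 8 * (GG n3 (qq z.2 + z.1 ^ 2 * Hh z) + z.1 * RH z) := by
  obtain ⟨-, -, -, -, rd, hrd, hd⟩ := (ser_Hx.mul ser_A1).add (ser_Hy.mul ser_A2)
  have hH := contDiff_Hh
  refine ⟨fun z => rd z + z.1 * n3 * Hh z * (qq z.2 ^ 2 + qq z.2 * (qq z.2 + z.1 ^ 2 * Hh z) +
    (qq z.2 + z.1 ^ 2 * Hh z) ^ 2 - 5 * (qq z.2 + (qq z.2 + z.1 ^ 2 * Hh z)) + 4),
    by unfold qq; fun_prop, fun z => ?_⟩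
  have e2 := hd z
  have i1 := idH1 z.2.1 z.2.2.1
  have i2 := idH2 z.2.1 z.2.2.1
  have i3 := idH3 z.2.1 z.2.2.1
  have i4 := idH4 z.2.1 z.2.2.1
  simp only [Hx, Hy, DD, GG, qq] at e2 i1 i2 i3 i4 ⊢
  linear_combination z.1 ^ 2 * e2 + z.1 ^ 2 * i1 + z.1 ^ 4 * i2 + z.1 ^ 6 * i3 + z.1 ^ 8 * i4

lemma H_deriv (σ : ℝ) {X : ℝ → E3} {s : Set ℝ} {t a b c : ℝ}
    (h : HasDerivWithinAt X (a, b, c) s t) :
    HasDerivWithinAt (fun t => qq (X t) + σ ^ 2 * Hh (σ, X t))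
      (Hx (σ, X t) * a + Hy (σ, X t) * b) s t := by
  have hx := dfst h
  have hy := dfst (dsnd h)
  refine (((hx.fun_pow 2).fun_add (hy.fun_pow 2)).fun_add
    (((((ev_deriv lH1 hx hy).fun_add ((ev_deriv lH2 hx hy).const_mul (σ ^ 2))).fun_add
      ((ev_deriv lH3 hx hy).const_mul (σ ^ 4))).fun_add
      ((ev_deriv lH4 hx hy).const_mul (σ ^ 6))).const_mul (σ ^ 2))).congr_deriv ?_
  simp only [Hx, Hy]
  ring

lemma hh_deriv (σ : ℝ) {x y : ℝ → ℝ} {x' y' t : ℝ} {s : Set ℝ}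
    (hx : HasDerivWithinAt x x' s t) (hy : HasDerivWithinAt y y' s t) :
    HasDerivWithinAt (fun t => hh σ (x t) (y t))
      (hhx σ (x t) (y t) * x' + hhy σ (x t) (y t) * y') s t := by
  refine (((ev_deriv lh0 hx hy).fun_add ((ev_deriv lh1 hx hy).const_mul (σ ^ 2))).fun_add
      ((ev_deriv lh2 hx hy).const_mul (σ ^ 4))).congr_deriv ?_
  simp only [hhx, hhy]
  ring

theorem exists_sys' : ∃ R3 : Z4 → ℝ, (∀ z : Z4,
    -18 * WW z + A3 z - (hhx z.1 z.2.1 z.2.2.1 * (-9 * z.2.2.1 + z.1 ^ 2 * A1 z) +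
      hhy z.1 z.2.1 z.2.2.1 * (9 * z.2.1 + z.1 ^ 2 * A2 z)) =
      z.1 ^ 5 * (-18 * z.2.2.2 + z.1 * R3 z)) ∧
    ∀ᶠ σ in 𝓝[>] (0 : ℝ), ∃ S : Sys, (∀ p, S.F1 p = -9 * p.2.1 + σ ^ 2 * A1 (σ, p)) ∧
      (∀ p, S.F2 p = 9 * p.1 + σ ^ 2 * A2 (σ, p)) ∧
      ∀ p, S.F3 p = -18 * p.2.2 + σ * R3 (σ, p) := by
  obtain ⟨R3, cR3, hR3⟩ := exists_R3
  obtain ⟨RH, cRH, hRH⟩ := exists_RH
  refine ⟨R3, hR3, exists_sys (n := n3) (by unfold n3; norm_num) contDiff_Hh cRH cR3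
    ser_A1.contDiff ser_A2.contDiff (fun _ _ _ _ => rfl) fun σ X s t c h => ?_⟩
  exact (H_deriv σ h).congr_deriv (hRH (σ, X t))

end Pool.Agent.MP_51358b_an

end

-- part MP_51358b_an.Eq
section

/-!
The system in linear normal coordinates; local asymptotic stability of the equilibrium.
-/

namespace Pool.Agent.MP_51358b_an

open Set Filter Topology

theorem eq_las {f : (Fin 3 → ℝ) → Fin 3 → ℝ} {Φ : E3 → Fin 3 → ℝ} {Ψ : (Fin 3 → ℝ) → E3}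
    (hΦ : Continuous Φ) (hΨ : Continuous Ψ) (hΨΦ : Ψ (Φ 0) = 0) (hΦΨ : ∀ u, Φ (Ψ u) = u)
    {Q dQ : E3 → ℝ} (hQ : Continuous Q) (hQ0 : Q 0 = 0) {m κ ρ : ℝ} (hm : 0 < m) (hκ : 0 < κ)
    (hρ : 0 < ρ) (hlow : ∀ x, m * dist x 0 ^ 2 ≤ Q x)
    (hd : ∀ u, IsSol f u → ∀ t, 0 ≤ t →
      HasDerivWithinAt (fun t => Q (Ψ (u t))) (dQ (Ψ (u t))) (Ici 0) t)
    (hdec : ∀ x, Q x ≤ ρ → dQ x ≤ -κ * Q x) : LAS f {Φ 0} := by
  have key : ∀ u, IsSol f u → Q (Ψ (u 0)) ≤ ρ → ∀ t, 0 ≤ t →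
      Q (Ψ (u t)) ≤ Q (Ψ (u 0)) * Real.exp (-κ * t) := by
    intro u hu h0
    have h1 := invariant (X := fun t => Q (Ψ (u t))) (D := Iic ρ)
      (fun t ht => (hd u hu t ht).continuousWithinAt) isClosed_Iic h0 (fun t ht hD =>
        ev_le ((hd u hu t ht).mono (Ici_subset_Ici.2 ht)) hD fun h => by
          have h2 := hdec _ hD
          have h3 : Q (Ψ (u t)) = ρ := h
          rw [h3] at h2
          nlinarith)
    simpa using exp_decay (hd u hu) fun t ht => hdec _ (h1 t ht)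
  have fin : ∀ ε, 0 < ε → ∃ ι, 0 < ι ∧ ∀ v, Q (Ψ v) < m * ι ^ 2 →
      Metric.infDist v {Φ 0} < ε := by
    intro ε hε
    obtain ⟨ι, hι, h⟩ := Metric.continuous_iff.1 hΦ 0 ε hε
    refine ⟨ι, hι, fun v hv => ?_⟩
    have h1 : dist (Ψ v) 0 < ι :=
      lt_of_pow_lt_pow_left₀ 2 hι.le (lt_of_mul_lt_mul_left ((hlow _).trans_lt hv) hm.le)
    have h2 := h _ h1
    rwa [hΦΨ, ← Metric.infDist_singleton] at h2
  have hop : ∀ η : ℝ, IsOpen {v | Q (Ψ v) < η} := fun η =>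
    isOpen_lt (hQ.comp hΨ) continuous_const
  have hsub : ∀ η : ℝ, 0 < η → {Φ 0} ⊆ {v | Q (Ψ v) < η} := fun η hη v hv => by
    rw [mem_singleton_iff.1 hv]
    change Q (Ψ (Φ 0)) < η
    rwa [hΨΦ, hQ0]
  have hnn : ∀ x, 0 ≤ Q x := fun x => le_trans (by positivity) (hlow x)
  refine las_of isCompact_singleton (singleton_nonempty _) (fun ε hε => ?_) ?_
  · obtain ⟨ι, hι, h⟩ := fin ε hε
    refine ⟨_, hop (min ρ (m * ι ^ 2)), hsub _ (lt_min hρ (by positivity)),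
      fun u hu h0 t ht => h _ ?_⟩
    have h1 : Q (Ψ (u 0)) < min ρ (m * ι ^ 2) := h0
    refine (key u hu (h1.le.trans (min_le_left _ _)) t ht).trans_lt
      ((mul_le_of_le_one_right (hnn _) ?_).trans_lt (h1.trans_le (min_le_right _ _)))
    exact Real.exp_le_one_iff.2 (by nlinarith)
  · refine ⟨_, hop ρ, hsub _ hρ, fun u hu h0 => Metric.tendsto_nhds.2 fun ε hε => ?_⟩
    obtain ⟨ι, hι, h⟩ := fin ε hε
    have ht : Tendsto (fun t => Q (Ψ (u 0)) * Real.exp (-κ * t)) atTop (𝓝 (Q (Ψ (u 0)) * 0)) :=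
      (Real.tendsto_exp_atBot.comp (tendsto_id.const_mul_atTop_of_neg (by linarith))).const_mul _
    rw [mul_zero] at ht
    filter_upwards [ht.eventually (gt_mem_nhds (show 0 < m * ι ^ 2 by positivity)),
      eventually_ge_atTop 0] with t h1 h2
    rw [Real.dist_eq, sub_zero, abs_of_nonneg Metric.infDist_nonneg]
    exact h _ ((key u hu (le_of_lt h0) t h2).trans_lt h1)

def xa (α β : ℝ) (x : E3) : ℝ := α * x.1 + β * x.2.2

noncomputable def xs (α β : ℝ) (x : E3) : ℝ := s0 x.1 x.2.1 + g3 * x.2.2 + xa α β x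

noncomputable def X1 (α β : ℝ) (x : E3) : ℝ :=
  -9 * x.2.1 - xa α β x - xs α β x * (b1 x.1 x.2.1 + be1 * x.2.2)

noncomputable def X2 (α β : ℝ) (x : E3) : ℝ :=
  9 * x.1 - xs α β x * (b2 x.1 x.2.1 + be2 * x.2.2)

noncomputable def X3 (α β : ℝ) (x : E3) : ℝ :=
  -18 * x.2.2 - xa α β x - xs α β x * (b3 x.1 x.2.1 + be3 * x.2.2)

noncomputable def QQ (α K : ℝ) (x : E3) : ℝ :=
  x.1 ^ 2 + x.2.1 ^ 2 + α / 9 * x.1 * x.2.1 + K * x.2.2 ^ 2

noncomputable def dQQ (α β K : ℝ) (x : E3) : ℝ :=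
  (2 * x.1 + α / 9 * x.2.1) * X1 α β x + (2 * x.2.1 + α / 9 * x.1) * X2 α β x +
    2 * K * x.2.2 * X3 α β x

lemma QQ_deriv (α β K : ℝ) {X : ℝ → E3} {s : Set ℝ} {t : ℝ}
    (h : HasDerivWithinAt X (X1 α β (X t), X2 α β (X t), X3 α β (X t)) s t) :
    HasDerivWithinAt (fun t => QQ α K (X t)) (dQQ α β K (X t)) s t := by
  have h1 := dfst h
  have h2 := dfst (dsnd h)
  have h3 := dsnd (dsnd h)
  refine ((((h1.fun_pow 2).fun_add (h2.fun_pow 2)).fun_add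
    ((h1.const_mul (α / 9)).fun_mul h2)).fun_add ((h3.fun_pow 2).const_mul K)).congr_deriv ?_
  simp only [dQQ]
  ring

lemma lin_sq (a b c x y z : ℝ) :
    (a * x + b * y + c * z) ^ 2 ≤ (a ^ 2 + b ^ 2 + c ^ 2) * (x ^ 2 + y ^ 2 + z ^ 2) := by
  nlinarith [sq_nonneg (a * y - b * x), sq_nonneg (a * z - c * x), sq_nonneg (b * z - c * y)]

lemma prod_bound (a b c d e f : ℝ) : ∃ C, 0 < C ∧ ∀ x y z : ℝ,
    |(a * x + b * y + c * z) * (d * x + e * y + f * z)| ≤ C * (x ^ 2 + y ^ 2 + z ^ 2) := by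
  refine ⟨a ^ 2 + b ^ 2 + c ^ 2 + (d ^ 2 + e ^ 2 + f ^ 2) + 1, by positivity, fun x y z => ?_⟩
  have h1 := lin_sq a b c x y z
  have h2 := lin_sq d e f x y z
  have h3 : 0 ≤ x ^ 2 + y ^ 2 + z ^ 2 := by positivity
  set A := a * x + b * y + c * z
  set B := d * x + e * y + f * z
  rw [abs_le]
  constructor <;> nlinarith [sq_nonneg (A + B), sq_nonneg (A - B), sq_nonneg A, sq_nonneg B]

lemma lin_neg {α β K : ℝ} (hα : 0 < α) (hα1 : α ≤ 1) (hβ : 0 ≤ β) (hβ1 : β ≤ 1)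
    (hK : K * α = β ^ 2) (x y z : ℝ) :
    (2 * x + α / 9 * y) * (-9 * y - (α * x + β * z)) + (2 * y + α / 9 * x) * (9 * x) +
      2 * K * z * (-18 * z - (α * x + β * z)) ≤ -(α / 3 * (x ^ 2 + y ^ 2) + K * z ^ 2) := by
  refine le_of_mul_le_mul_left ?_ hα
  set a := α * x with ha
  set b := α * y with hb
  set c := β * z with hc
  have e : α * (-(α / 3 * (x ^ 2 + y ^ 2) + K * z ^ 2)) -
      α * ((2 * x + α / 9 * y) * (-9 * y - (a + c)) + (2 * y + α / 9 * x) * (9 * x) +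
      2 * K * z * (-18 * z - (a + c))) =
      2 / 3 * a ^ 2 + 2 / 3 * b ^ 2 + α / 9 * a * b + (2 + 2 * β) * a * c + α / 9 * b * c +
        (35 + 2 * β) * c ^ 2 := by
    rw [ha, hb, hc]
    linear_combination (35 * z ^ 2 + 2 * z * (α * x + β * z)) * hK
  have h1 := mul_nonneg hα.le (sq_nonneg (a + b))
  have h2 := mul_nonneg hα.le (sq_nonneg (b + c))
  have h3 := mul_nonneg (sub_nonneg.2 hα1) (sq_nonneg a)
  have h4 := mul_nonneg (sub_nonneg.2 hα1) (sq_nonneg b)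
  have h5 := mul_nonneg (sub_nonneg.2 hα1) (sq_nonneg c)
  have h6 := mul_nonneg hβ (sq_nonneg (a + 8 * c))
  have h7 := sq_nonneg (a + 8 * c)
  have h8 := mul_nonneg (sub_nonneg.2 hβ1) (sq_nonneg a)
  have h9 := mul_nonneg (sub_nonneg.2 hβ1) (sq_nonneg c)
  have h10 := mul_nonneg hβ (sq_nonneg c)
  nlinarith [sq_nonneg a, sq_nonneg b, sq_nonneg c]

lemma QQ_est {α β K : ℝ} (hα : 0 < α) (hα1 : α ≤ 1) (hβ : 0 ≤ β) (hβ1 : β ≤ 1) (hK0 : 0 < K)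
    (hK : K * α = β ^ 2) : ∃ m κ ρ : ℝ, 0 < m ∧ 0 < κ ∧ 0 < ρ ∧
      (∀ x : E3, m * dist x 0 ^ 2 ≤ QQ α K x) ∧
      ∀ x, QQ α K x ≤ ρ → dQQ α β K x ≤ -κ * QQ α K x := by
  obtain ⟨C1, hC1, h1⟩ := prod_bound 2 (α / 9) 0 351 (-350) be1
  obtain ⟨C2, hC2, h2⟩ := prod_bound (α / 9) 2 0 (-220 / 3) (223 / 3) be2
  obtain ⟨C3, hC3, h3⟩ := prod_bound 0 0 (2 * K) (940 / 3) (-940 / 3) be3
  set m := min (1 / 2) K with hm
  set μ := min (α / 3) K with hμ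
  have hm0 : 0 < m := lt_min (by norm_num) hK0
  have hμ0 : 0 < μ := lt_min (by positivity) hK0
  set Cs := (14 / 5 + α) ^ 2 + (16 / 5) ^ 2 + (g3 + β) ^ 2 with hCs
  have hCs0 : 0 < Cs := by positivity
  set C := C1 + C2 + C3 with hC
  have hC0 : 0 < C := by positivity
  have hlow : ∀ x : E3, m * (x.1 ^ 2 + x.2.1 ^ 2 + x.2.2 ^ 2) ≤ QQ α K x := fun x => by
    have a1 := mul_nonneg (sub_nonneg.2 (min_le_left (1 / 2) K))
      (show 0 ≤ x.1 ^ 2 + x.2.1 ^ 2 by positivity)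
    have a2 := mul_nonneg (sub_nonneg.2 (min_le_right (1 / 2) K)) (sq_nonneg x.2.2)
    have a3 := mul_nonneg hα.le (sq_nonneg (x.1 + x.2.1))
    have a4 := mul_nonneg (sub_nonneg.2 hα1) (show 0 ≤ x.1 ^ 2 + x.2.1 ^ 2 by positivity)
    unfold QQ
    nlinarith [sq_nonneg x.1, sq_nonneg x.2.1]
  have hup : ∀ x : E3, QQ α K x ≤ (2 + K) * (x.1 ^ 2 + x.2.1 ^ 2 + x.2.2 ^ 2) := fun x => by
    have a2 := mul_nonneg hK0.le (show 0 ≤ x.1 ^ 2 + x.2.1 ^ 2 by positivity)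
    have a3 := mul_nonneg hα.le (sq_nonneg (x.1 - x.2.1))
    have a4 := mul_nonneg (sub_nonneg.2 hα1) (show 0 ≤ x.1 ^ 2 + x.2.1 ^ 2 by positivity)
    unfold QQ
    nlinarith [sq_nonneg x.1, sq_nonneg x.2.1, sq_nonneg x.2.2]
  refine ⟨m, μ / 2 / (2 + K), m * (μ / (2 * C)) ^ 2 / Cs, hm0, by positivity, by positivity,
    fun x => le_trans (mul_le_mul_of_nonneg_left ?_ hm0.le) (hlow x), fun x hx => ?_⟩
  · have h4 : dist x 0 ≤ √(x.1 ^ 2 + x.2.1 ^ 2 + x.2.2 ^ 2) := by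
      simp only [Prod.dist_eq, Real.dist_eq, Prod.fst_zero, Prod.snd_zero, sub_zero]
      refine max_le (Real.abs_le_sqrt ?_) (max_le (Real.abs_le_sqrt ?_) (Real.abs_le_sqrt ?_)) <;>
        nlinarith [sq_nonneg x.1, sq_nonneg x.2.1, sq_nonneg x.2.2]
    calc _ ≤ √(x.1 ^ 2 + x.2.1 ^ 2 + x.2.2 ^ 2) ^ 2 := pow_le_pow_left₀ dist_nonneg h4 2
      _ = _ := Real.sq_sqrt (by positivity)
  · set n := x.1 ^ 2 + x.2.1 ^ 2 + x.2.2 ^ 2 with hn
    have hn0 : 0 ≤ n := by positivity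
    have hs1 : xs α β x ^ 2 ≤ Cs * n := by
      refine le_of_eq_of_le ?_ (lin_sq (14 / 5 + α) (16 / 5) (g3 + β) x.1 x.2.1 x.2.2)
      simp only [xs, s0, xa]
      ring
    have hs2 : Cs * n ≤ (μ / (2 * C)) ^ 2 := by
      have h4 := (hlow x).trans hx
      rw [le_div_iff₀ hCs0] at h4
      refine le_of_mul_le_mul_left ?_ hm0
      calc m * (Cs * n) = m * n * Cs := by ring
        _ ≤ _ := h4
    have hs3 : |xs α β x| ≤ μ / (2 * C) := abs_le_of_sq_le_sq (hs1.trans hs2) (by positivity)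
    set N := (2 * x.1 + α / 9 * x.2.1 + 0 * x.2.2) * (351 * x.1 + -350 * x.2.1 + be1 * x.2.2) +
      (α / 9 * x.1 + 2 * x.2.1 + 0 * x.2.2) * (-220 / 3 * x.1 + 223 / 3 * x.2.1 + be2 * x.2.2) +
      (0 * x.1 + 0 * x.2.1 + 2 * K * x.2.2) * (940 / 3 * x.1 + -940 / 3 * x.2.1 + be3 * x.2.2)
      with hN
    have hN1 : |N| ≤ C * n := by
      refine (abs_add_three _ _ _).trans ?_
      refine (add_le_add (add_le_add (h1 x.1 x.2.1 x.2.2) (h2 x.1 x.2.1 x.2.2))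
        (h3 x.1 x.2.1 x.2.2)).trans_eq ?_
      rw [hC, hn]
      ring
    have hN2 : |xs α β x * N| ≤ μ / 2 * n := by
      rw [abs_mul]
      calc _ ≤ μ / (2 * C) * (C * n) := mul_le_mul hs3 hN1 (abs_nonneg _) (by positivity)
        _ = _ := by field_simp
    have hl := lin_neg hα hα1 hβ hβ1 hK x.1 x.2.1 x.2.2
    have e : dQQ α β K x = (2 * x.1 + α / 9 * x.2.1) * (-9 * x.2.1 - (α * x.1 + β * x.2.2)) +
        (2 * x.2.1 + α / 9 * x.1) * (9 * x.1) +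
        2 * K * x.2.2 * (-18 * x.2.2 - (α * x.1 + β * x.2.2)) - xs α β x * N := by
      simp only [dQQ, X1, X2, X3, xa, b1, b2, b3, hN]
      ring
    have a1 := mul_nonneg (sub_nonneg.2 (min_le_left (α / 3) K))
      (show 0 ≤ x.1 ^ 2 + x.2.1 ^ 2 by positivity)
    have a2 := mul_nonneg (sub_nonneg.2 (min_le_right (α / 3) K)) (sq_nonneg x.2.2)
    have a3 : dQQ α β K x ≤ -(μ / 2 * n) := by
      have := (abs_le.1 hN2).1
      rw [e]
      nlinarith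
    have a4 : μ / 2 / (2 + K) * QQ α K x ≤ μ / 2 * n := by
      calc _ ≤ μ / 2 / (2 + K) * ((2 + K) * n) := mul_le_mul_of_nonneg_left (hup x) (by positivity)
        _ = _ := by field_simp
    linarith

end Pool.Agent.MP_51358b_an

end

-- part MP_51358b_an.Exist
section

/-!
Global existence in the orthant for `p = 1` and symmetric `M`.
-/

namespace Pool.Agent.MP_51358b_an

open Set Filter Topology

lemma field_one (r b c : Fin 3 → ℝ) (M : Matrix (Fin 3) (Fin 3) ℝ) (u : Fin 3 → ℝ) (i : Fin 3) :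
    field 1 r b c M u i = (∑ j, M i j * u j) + (r i - (∑ j, c j * u j) * b i) * u i := by
  simp [field]

lemma contDiff_field_one (r b c : Fin 3 → ℝ) (M : Matrix (Fin 3) (Fin 3) ℝ) :
    ContDiff ℝ 1 (field 1 r b c M) := by
  refine contDiff_pi.2 fun i => ?_
  simp only [field_one]
  fun_prop

noncomputable def cl (R : ℝ) (u : Fin 3 → ℝ) : Fin 3 → ℝ := fun i => max 0 (min (u i) R)

lemma cl_lip (R : ℝ) : LipschitzWith 1 (cl R) := by
  refine LipschitzWith.of_dist_le_mul fun u v => ?_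
  refine (dist_pi_le_iff (by positivity)).2 fun i => ?_
  exact (((LipschitzWith.eval (α := fun _ : Fin 3 => ℝ) i).min_const R).const_max 0).dist_le_mul u v

lemma cl_mem {R : ℝ} (hR : 0 ≤ R) (u : Fin 3 → ℝ) : cl R u ∈ Icc (0 : Fin 3 → ℝ) fun _ => R :=
  ⟨fun _ => le_max_left _ _, fun _ => max_le hR (min_le_right _ _)⟩

theorem exists_global {r b c : Fin 3 → ℝ} {M : Matrix (Fin 3) (Fin 3) ℝ}
    (hb : ∀ i, 0 < b i) (hc : ∀ i, 0 < c i) (hM : ∀ i j, i ≠ j → 0 ≤ M i j)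
    (hcol : ∀ j, ∑ i, M i j = 0) (u₀ : Fin 3 → ℝ) (h0 : ∀ i, 0 ≤ u₀ i) :
    ∃ u, IsSol (field 1 r b c M) u ∧ u 0 = u₀ := by
  obtain ⟨R, hR1, hR2⟩ : ∃ R : ℝ, ∑ i, u₀ i ≤ R ∧ ∀ i j, r i ≤ c j * b i * R := by
    have h1 : ∀ᶠ R : ℝ in atTop, ∀ i j, r i ≤ c j * b i * R := by
      simp only [eventually_all]
      intro i j
      exact (tendsto_id.const_mul_atTop (mul_pos (hc j) (hb i))).eventually_ge_atTop _
    exact ((eventually_ge_atTop _).and h1).exists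
  have hR : 0 ≤ R := (Finset.sum_nonneg fun i _ => h0 i).trans hR1
  obtain ⟨K, hK⟩ := (contDiff_field_one r b c M).contDiffOn.exists_lipschitzOnWith
    (s := Icc (0 : Fin 3 → ℝ) fun _ => R) one_ne_zero (convex_Icc _ _) isCompact_Icc
  obtain ⟨L, hL⟩ := (isCompact_Icc (a := (0 : Fin 3 → ℝ)) (b := fun _ => R)).exists_bound_of_continuousOn
    (contDiff_field_one r b c M).continuous.continuousOn
  have hlip : LipschitzWith (K * 1) (fun u => field 1 r b c M (cl R u)) :=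
    lipschitzOnWith_univ.1 (hK.comp (cl_lip R).lipschitzOnWith fun u _ => cl_mem hR u)
  obtain ⟨u, hu0, hu⟩ := exists_sol (L := ⟨max L 0, le_max_right _ _⟩) hlip
    (fun u => (hL _ (cl_mem hR u)).trans (le_max_left _ _)) u₀
  have hui : ∀ i t, HasDerivAt (fun t => u t i) (field 1 r b c M (cl R (u t)) i) t :=
    fun i t => hasDerivAt_pi.1 (hu t) i
  have hnn : ∀ i t, 0 ≤ t → 0 ≤ u t i := by
    intro i t ht
    have h := le_of_deriv_nonpos (c := 0) (fun t => (hui i t).fun_neg)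
      (by simpa [hu0] using h0 i) (fun t _ hlt => by
        have h1 : cl R (u t) i = 0 := max_eq_left ((min_le_left _ _).trans (by linarith))
        rw [field_one, h1, mul_zero, add_zero, neg_nonpos]
        refine Finset.sum_nonneg fun j _ => ?_
        by_cases hij : i = j
        · rw [← hij, h1, mul_zero]
        · exact mul_nonneg (hM i j hij) (le_max_left _ _)) t ht
    linarith
  have hsum : ∀ t, 0 ≤ t → ∑ i, u t i ≤ R := by
    refine le_of_deriv_nonpos (f' := fun t => ∑ i, field 1 r b c M (cl R (u t)) i)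
      (fun t => HasDerivAt.fun_sum fun i _ => hui i t) (by simpa [hu0] using hR1)
      fun t ht hlt => ?_
    set v := cl R (u t) with hv
    have hv0 : ∀ i, 0 ≤ v i := fun i => le_max_left _ _
    have hvs : R ≤ ∑ i, v i := by
      by_cases h : ∃ i, R ≤ u t i
      · obtain ⟨i, hi⟩ := h
        have h1 : v i = R := by simp [hv, cl, hi, hR]
        exact h1 ▸ Finset.single_le_sum (fun j _ => hv0 j) (Finset.mem_univ i)
      · push Not at h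
        refine hlt.le.trans (Finset.sum_le_sum fun i _ => ?_)
        simp [hv, cl, (h i).le]
    simp only [field_one, Finset.sum_add_distrib]
    rw [Finset.sum_comm]
    simp only [← Finset.sum_mul, hcol, zero_mul, Finset.sum_const_zero, zero_add]
    refine Finset.sum_nonpos fun i _ => mul_nonpos_of_nonpos_of_nonneg ?_ (hv0 i)
    obtain ⟨j, -, hj⟩ := Finset.exists_min_image Finset.univ c Finset.univ_nonempty
    have h1 : c j * R ≤ ∑ k, c k * v k := by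
      calc c j * R ≤ c j * ∑ k, v k := mul_le_mul_of_nonneg_left hvs (hc j).le
        _ = ∑ k, c j * v k := Finset.mul_sum _ _ _
        _ ≤ _ := Finset.sum_le_sum fun k _ =>
          mul_le_mul_of_nonneg_right (hj k (Finset.mem_univ _)) (hv0 k)
    have h2 := hR2 i j
    nlinarith [mul_le_mul_of_nonneg_right h1 (hb i).le]
  refine ⟨u, fun t ht => ⟨fun i => hnn i t ht, ?_⟩, hu0⟩
  have h1 : cl R (u t) = u t := by
    funext i
    have h2 : u t i ≤ R :=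
      (Finset.single_le_sum (fun j _ => hnn j t ht) (Finset.mem_univ i)).trans (hsum t ht)
    simp [cl, h2, hnn i t ht]
  have := hu t
  rw [h1] at this
  exact this.hasDerivWithinAt

end Pool.Agent.MP_51358b_an

end

-- part MP_51358b_an.Conj
section

/-!
The concrete parameters and the changes of coordinates.
-/

namespace Pool.Agent.MP_51358b_an

open Set Filter Topology

noncomputable def w2 : ℝ := √(118701 / 58870)

noncomputable def w3 : ℝ := √(7786925 / 3964474)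

lemma w2_sq : w2 ^ 2 = 118701 / 58870 := Real.sq_sqrt (by norm_num)

lemma w3_sq : w3 ^ 2 = 7786925 / 3964474 := Real.sq_sqrt (by norm_num)

lemma w2_ge : 1 ≤ w2 := Real.one_le_sqrt.2 (by norm_num)

lemma w3_ge : 1 ≤ w3 := Real.one_le_sqrt.2 (by norm_num)

lemma w2_pos : 0 < w2 := one_pos.trans_le w2_ge

lemma w3_pos : 0 < w3 := one_pos.trans_le w3_ge

noncomputable def ct1 (α β : ℝ) : ℝ :=
  375347 / 14278455 + α * (234929 / 20941734) + β * (-19430 / 8567073)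

noncomputable def ct2 (α β : ℝ) : ℝ := 2409 / 203770 + α * (11 / 11644) + β * (517 / 611310)

noncomputable def ct3 (α β : ℝ) : ℝ := 3625 / 1962 + α * (-175 / 14388) + β * (625 / 5886)

noncomputable def sb (α β : ℝ) : ℝ := ct1 α β + ct2 α β + ct3 α β

noncomputable def m12 : ℝ := 1827 / 2911 * w2

noncomputable def m13 : ℝ := 68353 / 118701 * w3

noncomputable def MM : Matrix (Fin 3) (Fin 3) ℝ :=
  !![-(m12 + m13), m12, m13; m12, -m12, 0; m13, 0, -m13]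

noncomputable def bb : Fin 3 → ℝ := ![1, 11655 / 11, 1]

noncomputable def cc (α β : ℝ) : Fin 3 → ℝ := ![ct1 α β, ct2 α β / w2, ct3 α β / w3]

noncomputable def rr (α β : ℝ) : Fin 3 → ℝ :=
  ![-4140483448 / 1727693055 + m12 + m13 + sb α β, -1827 / 2911 + m12 + sb α β * (11655 / 11),
    -68353 / 118701 + m13 + sb α β]

noncomputable def ff (α β : ℝ) : (Fin 3 → ℝ) → Fin 3 → ℝ := field 1 (rr α β) bb (cc α β) MM

noncomputable def gs (α β v1 v2 v3 : ℝ) : ℝ :=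
  sb α β - (ct1 α β * v1 + ct2 α β * v2 + ct3 α β * v3)

noncomputable def g1 (α β v1 v2 v3 : ℝ) : ℝ :=
  -4140483448 / 1727693055 * v1 + 1068309 / 844190 * v2 + 7786925 / 6884658 * v3 +
    gs α β v1 v2 v3 * v1

noncomputable def g2 (α β v1 v2 v3 : ℝ) : ℝ :=
  1827 / 2911 * (v1 - v2) + gs α β v1 v2 v3 * (11655 / 11) * v2

noncomputable def g3' (α β v1 v2 v3 : ℝ) : ℝ :=
  68353 / 118701 * (v1 - v3) + gs α β v1 v2 v3 * v3

lemma m12_pos : 0 < m12 := by have := w2_pos; unfold m12; positivity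

lemma m13_pos : 0 < m13 := by have := w3_pos; unfold m13; positivity

lemma ff_eq (α β : ℝ) (u : Fin 3 → ℝ) :
    ff α β u 0 = g1 α β (u 0) (u 1 / w2) (u 2 / w3) ∧
    ff α β u 1 / w2 = g2 α β (u 0) (u 1 / w2) (u 2 / w3) ∧
    ff α β u 2 / w3 = g3' α β (u 0) (u 1 / w2) (u 2 / w3) := by
  have h2 := w2_pos.ne'
  have h3 := w3_pos.ne'
  obtain ⟨v2, hv2⟩ : ∃ v, u 1 = w2 * v := ⟨u 1 / w2, by field_simp⟩
  obtain ⟨v3, hv3⟩ : ∃ v, u 2 = w3 * v := ⟨u 2 / w3, by field_simp⟩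
  have e2 : ∀ a, a / w2 * (w2 * v2) = a * v2 := fun a => by field_simp
  have e3 : ∀ a, a / w3 * (w3 * v3) = a * v3 := fun a => by field_simp
  simp only [ff, field_one, Fin.sum_univ_three, MM, rr, bb, cc, Matrix.of_apply, Matrix.cons_val',
    Matrix.cons_val_zero, Matrix.cons_val_one, Matrix.cons_val_two, Matrix.cons_val_fin_one,
    Matrix.head_cons, Matrix.tail_cons, Matrix.head_fin_const, hv2, hv3, e2, e3,
    mul_div_cancel_left₀ _ h2, mul_div_cancel_left₀ _ h3, g1, g2, g3', gs, m12, m13]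
  refine ⟨?_, ?_, ?_⟩
  · linear_combination (1827 / 2911 * v2) * w2_sq + (68353 / 118701 * v3) * w3_sq
  · rw [div_eq_iff h2]; ring
  · rw [div_eq_iff h3]; ring

noncomputable def Pv (v1 v2 v3 : ℝ) : E3 :=
  (234929 / 20941734 * v1 + 11 / 11644 * v2 + -175 / 14388 * v3,
    1247783 / 188475606 * v1 + -121 / 611310 * v2 + 6575 / 32373 * v3,
    -19430 / 8567073 * v1 + 517 / 611310 * v2 + 625 / 5886 * v3)

noncomputable def PL (u : Fin 3 → ℝ) : E3 := Pv (u 0 - 1) (u 1 / w2 - 1) (u 2 / w3 - 1)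

noncomputable def y1 (x : E3) : ℝ := 18498 / 319 * x.1 + 10612 / 319 * x.2.1 + -18179 / 319 * x.2.2

noncomputable def y2 (x : E3) : ℝ := 350 * x.1 + -350 * x.2.1 + 7805 / 11 * x.2.2

noncomputable def y3 (x : E3) : ℝ := -426 / 275 * x.1 + 962 / 275 * x.2.1 + 701 / 275 * x.2.2

noncomputable def PI (x : E3) : Fin 3 → ℝ := ![1 + y1 x, w2 * (1 + y2 x), w3 * (1 + y3 x)]

lemma continuous_PL : Continuous PL := by unfold PL Pv; fun_prop

lemma continuous_PI : Continuous PI := by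
  refine continuous_pi fun i => ?_
  fin_cases i <;> simp only [PI, y1, y2, y3] <;> simp <;> fun_prop

lemma PL_PI (x : E3) : PL (PI x) = x := by
  have h2 := w2_pos.ne'
  have h3 := w3_pos.ne'
  simp only [PL, PI, Matrix.cons_val_zero, Matrix.cons_val_one, Matrix.cons_val_two,
    Matrix.head_cons, Matrix.tail_cons, mul_div_cancel_left₀ _ h2, mul_div_cancel_left₀ _ h3,
    Pv, y1, y2, y3]
  refine Prod.ext ?_ (Prod.ext ?_ ?_) <;> simp only <;> ring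

lemma PI_PL (u : Fin 3 → ℝ) : PI (PL u) = u := by
  have h2 := w2_pos.ne'
  have h3 := w3_pos.ne'
  have e1 : 1 + y1 (PL u) = u 0 := by simp only [PL, Pv, y1]; ring
  have e2 : 1 + y2 (PL u) = u 1 / w2 := by simp only [PL, Pv, y2]; ring
  have e3 : 1 + y3 (PL u) = u 2 / w3 := by simp only [PL, Pv, y3]; ring
  funext i
  fin_cases i <;> simp [PI, e1, e2, e3, mul_div_cancel₀ _ h2, mul_div_cancel₀ _ h3]

lemma Pv_g (α β v1 v2 v3 : ℝ) :
    Pv (g1 α β v1 v2 v3) (g2 α β v1 v2 v3) (g3' α β v1 v2 v3) =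
      (X1 α β (Pv (v1 - 1) (v2 - 1) (v3 - 1)), X2 α β (Pv (v1 - 1) (v2 - 1) (v3 - 1)),
        X3 α β (Pv (v1 - 1) (v2 - 1) (v3 - 1))) := by
  refine Prod.ext ?_ (Prod.ext ?_ ?_) <;>
    simp only [Pv, g1, g2, g3', gs, sb, ct1, ct2, ct3, X1, X2, X3, xa, xs, s0, g3, b1, b2, b3,
      be1, be2, be3] <;> ring

lemma PL_deriv {α β : ℝ} {u : ℝ → Fin 3 → ℝ} {s : Set ℝ} {t : ℝ}
    (h : HasDerivWithinAt u (ff α β (u t)) s t) :
    HasDerivWithinAt (fun t => PL (u t))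
      (X1 α β (PL (u t)), X2 α β (PL (u t)), X3 α β (PL (u t))) s t := by
  have h0 := (hasDerivWithinAt_pi.1 h 0).sub_const 1
  have h1 := ((hasDerivWithinAt_pi.1 h 1).div_const w2).sub_const 1
  have h2 := ((hasDerivWithinAt_pi.1 h 2).div_const w3).sub_const 1
  obtain ⟨e0, e1, e2⟩ := ff_eq α β (u t)
  rw [e0] at h0
  rw [e1] at h1
  rw [e2] at h2
  simp only [PL]
  rw [← Pv_g]
  exact (((h0.const_mul _).fun_add (h1.const_mul _)).fun_add (h2.const_mul _)).prodMk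
    ((((h0.const_mul _).fun_add (h1.const_mul _)).fun_add (h2.const_mul _)).prodMk
      (((h0.const_mul _).fun_add (h1.const_mul _)).fun_add (h2.const_mul _)))

noncomputable def Sc (σ : ℝ) (x : E3) : E3 :=
  (x.1 / σ ^ 2, x.2.1 / σ ^ 2, (x.2.2 / σ ^ 4 - hh σ (x.1 / σ ^ 2) (x.2.1 / σ ^ 2)) / σ ^ 5)

noncomputable def Us (σ : ℝ) (p : E3) : E3 := (σ ^ 2 * p.1, σ ^ 2 * p.2.1, σ ^ 4 * WW (σ, p))

lemma Sc_Us {σ : ℝ} (hσ : σ ≠ 0) (p : E3) : Sc σ (Us σ p) = p := by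
  simp only [Sc, Us, mul_div_cancel_left₀ _ (pow_ne_zero 2 hσ),
    mul_div_cancel_left₀ _ (pow_ne_zero 4 hσ), WW, add_sub_cancel_left,
    mul_div_cancel_left₀ _ (pow_ne_zero 5 hσ)]

lemma Us_Sc {σ : ℝ} (hσ : σ ≠ 0) (x : E3) : Us σ (Sc σ x) = x := by
  simp only [Sc, Us, mul_div_cancel₀ _ (pow_ne_zero 2 hσ), WW,
    mul_div_cancel₀ _ (pow_ne_zero 5 hσ), add_sub_cancel, mul_div_cancel₀ _ (pow_ne_zero 4 hσ)]

lemma continuous_Us (σ : ℝ) : Continuous (Us σ) := by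
  have := contDiff_WW.continuous
  unfold Us
  fun_prop

lemma continuous_Sc (σ : ℝ) : Continuous (Sc σ) := by
  have h : Continuous fun z : Z4 => hh σ z.2.1 z.2.2.1 := by
    have : ContDiff ℝ 1 fun z : Z4 => hh σ z.2.1 z.2.2.1 := by unfold hh; fun_prop
    exact this.continuous
  have h2 : Continuous fun x : E3 => hh σ (x.1 / σ ^ 2) (x.2.1 / σ ^ 2) :=
    h.comp (f := fun x : E3 => ((0, x.1 / σ ^ 2, x.2.1 / σ ^ 2, 0) : Z4)) (by fun_prop)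
  unfold Sc
  fun_prop

lemma X_Us (σ : ℝ) (p : E3) :
    X1 (σ ^ 8 * de) (σ ^ 4 * nu) (Us σ p) = σ ^ 2 * (-9 * p.2.1 + σ ^ 2 * A1 (σ, p)) ∧
    X2 (σ ^ 8 * de) (σ ^ 4 * nu) (Us σ p) = σ ^ 2 * (9 * p.1 + σ ^ 2 * A2 (σ, p)) ∧
    X3 (σ ^ 8 * de) (σ ^ 4 * nu) (Us σ p) = σ ^ 4 * (-18 * WW (σ, p) + A3 (σ, p)) := by
  refine ⟨?_, ?_, ?_⟩ <;>
    simp only [X1, X2, X3, xa, xs, Us, A1, A2, A3, SS, BB, LL, s0, b1, b2, b3] <;> ring

lemma Sc_deriv {σ : ℝ} (hσ : σ ≠ 0) {R3 : Z4 → ℝ} (hR3 : ∀ z : Z4,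
      -18 * WW z + A3 z - (hhx z.1 z.2.1 z.2.2.1 * (-9 * z.2.2.1 + z.1 ^ 2 * A1 z) +
        hhy z.1 z.2.1 z.2.2.1 * (9 * z.2.1 + z.1 ^ 2 * A2 z)) =
        z.1 ^ 5 * (-18 * z.2.2.2 + z.1 * R3 z))
    {x : ℝ → E3} {s : Set ℝ} {t : ℝ}
    (h : HasDerivWithinAt x (X1 (σ ^ 8 * de) (σ ^ 4 * nu) (x t), X2 (σ ^ 8 * de) (σ ^ 4 * nu) (x t),
      X3 (σ ^ 8 * de) (σ ^ 4 * nu) (x t)) s t) :
    HasDerivWithinAt (fun t => Sc σ (x t))
      (-9 * (Sc σ (x t)).2.1 + σ ^ 2 * A1 (σ, Sc σ (x t)),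
        9 * (Sc σ (x t)).1 + σ ^ 2 * A2 (σ, Sc σ (x t)),
        -18 * (Sc σ (x t)).2.2 + σ * R3 (σ, Sc σ (x t))) s t := by
  obtain ⟨e1, e2, e3⟩ := X_Us σ (Sc σ (x t))
  rw [Us_Sc hσ] at e1 e2 e3
  rw [e1, e2, e3] at h
  have h1 := (dfst h).div_const (σ ^ 2)
  have h2 := (dfst (dsnd h)).div_const (σ ^ 2)
  have h3 := (dsnd (dsnd h)).div_const (σ ^ 4)
  rw [mul_div_cancel_left₀ _ (pow_ne_zero _ hσ)] at h1 h2 h3
  refine h1.prodMk (h2.prodMk (((h3.fun_sub (hh_deriv σ h1 h2)).div_const (σ ^ 5)).congr_deriv ?_))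
  rw [div_eq_iff (pow_ne_zero _ hσ)]
  exact (hR3 (σ, Sc σ (x t))).trans (mul_comm _ _)

lemma admissible {α β : ℝ} (hα : 0 ≤ α) (hα1 : α ≤ 1) (hβ : 0 ≤ β) (hβ1 : β ≤ 1) :
    Admissible 1 (rr α β) bb (cc α β) MM := by
  have h1 : 0 < ct1 α β := by unfold ct1; linarith
  have h2 : 0 < ct2 α β := by unfold ct2; linarith
  have h3 : 3 / 2 ≤ ct3 α β := by unfold ct3; linarith
  have h4 : 3 / 2 ≤ sb α β := by unfold sb; linarith
  have h5 : 1827 / 2911 ≤ m12 := by unfold m12; linarith [w2_ge]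
  have h6 : 68353 / 118701 ≤ m13 := by unfold m13; linarith [w3_ge]
  have h7 := w2_pos
  have h8 := w3_pos
  have h9 := m12_pos
  have h10 := m13_pos
  refine ⟨le_rfl, fun i => ?_, fun i => ?_, fun i => ?_, fun i j hij => ?_, fun S hS hS' => ?_,
    fun i => ?_⟩
  · fin_cases i <;> simp [rr] <;> linarith
  · fin_cases i <;> simp [bb]
  · fin_cases i
    · simpa [cc] using h1
    · simpa [cc] using div_pos h2 h7
    · simpa [cc] using div_pos (show 0 < ct3 α β by linarith) h8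
  · fin_cases i <;> fin_cases j <;> simp_all [MM] <;> linarith
  · by_cases h0 : (0 : Fin 3) ∈ S
    · obtain ⟨j, hj⟩ := (ne_univ_iff_exists_notMem S).1 hS'
      refine ⟨0, h0, j, hj, ?_⟩
      fin_cases j
      · exact absurd h0 hj
      · simpa [MM] using h9.ne'
      · simpa [MM] using h10.ne'
    · obtain ⟨i, hi⟩ := hS
      refine ⟨i, hi, 0, h0, ?_⟩
      fin_cases i
      · exact absurd hi h0
      · simpa [MM] using h9.ne'
      · simpa [MM] using h10.ne'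
  · fin_cases i <;> simp [MM, Fin.sum_univ_three]

lemma MM_symm : MM.IsSymm := by
  ext i j
  fin_cases i <;> fin_cases j <;> simp [MM]

lemma ff_zero (α β : ℝ) : ff α β (PI 0) = 0 := by
  have h2 := w2_pos.ne'
  have h3 := w3_pos.ne'
  obtain ⟨e0, e1, e2⟩ := ff_eq α β (PI 0)
  have a0 : PI 0 0 = 1 := by simp [PI, y1]
  have a1 : PI 0 1 / w2 = 1 := by simp [PI, y2, h2]
  have a2 : PI 0 2 / w3 = 1 := by simp [PI, y3, h3]
  rw [a0, a1, a2] at e0 e1 e2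
  have b0 : g1 α β 1 1 1 = 0 := by simp only [g1, gs, sb]; ring
  have b1 : g2 α β 1 1 1 = 0 := by simp only [g2, gs, sb]; ring
  have b2 : g3' α β 1 1 1 = 0 := by simp only [g3', gs, sb]; ring
  rw [b0] at e0
  rw [b1, div_eq_zero_iff] at e1
  rw [b2, div_eq_zero_iff] at e2
  funext i
  fin_cases i
  · exact e0
  · exact e1.resolve_right h2
  · exact e2.resolve_right h3

lemma ff_unique {α β : ℝ} (hs : sb α β ≠ 0) {v : Fin 3 → ℝ} (hv : ∀ i, 0 < v i)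
    (h : ff α β v = 0) : v = PI 0 := by
  have h2 := w2_pos
  have h3 := w3_pos
  obtain ⟨e0, e1, e2⟩ := ff_eq α β v
  rw [h] at e0 e1 e2
  simp only [Pi.zero_apply, zero_div] at e0 e1 e2
  have p1 := hv 0
  have p2 := div_pos (hv 1) h2
  have p3 := div_pos (hv 2) h3
  set v1 := v 0 with hv1
  set v2 := v 1 / w2 with hv2
  set v3 := v 2 / w3 with hv3
  simp only [g1, g2, g3'] at e0 e1 e2
  have a1 : gs α β v1 v2 v3 * (v1 + 118701 / 58870 * (11655 / 11) * v2 + 7786925 / 3964474 * v3) = 0 := by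
    linear_combination -e0 - 118701 / 58870 * e1 - 7786925 / 3964474 * e2
  have a2 : gs α β v1 v2 v3 = 0 := (mul_eq_zero.1 a1).resolve_right (by positivity)
  rw [a2] at e1 e2
  have a3 : v2 = v1 := by linarith
  have a4 : v3 = v1 := by linarith
  have a5 : v1 = 1 := by
    rw [a3, a4] at a2
    have : sb α β * (1 - v1) = 0 := by
      simp only [gs, sb] at a2 ⊢
      linear_combination a2
    linarith [(mul_eq_zero.1 this).resolve_left hs]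
  have a6 : v 1 = w2 := by
    have : v 1 / w2 = 1 := by rw [← hv2, a3, a5]
    rwa [div_eq_one_iff_eq h2.ne'] at this
  have a7 : v 2 = w3 := by
    have : v 2 / w3 = 1 := by rw [← hv3, a4, a5]
    rwa [div_eq_one_iff_eq h3.ne'] at this
  funext i
  fin_cases i
  · simpa [PI, y1] using a5
  · simpa [PI, y2] using a6
  · simpa [PI, y3] using a7

end Pool.Agent.MP_51358b_an

end
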