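import Pool.Agent.MP_51358b_an.Mg.Dyn

/-!
The attracting periodic orbit of the abstract rotating system, transported to the orthant.
-/

namespace Pool.Agent.MP_51358b_an

open Set Filter Topology

lemma per_nat {α : Type*} {g : ℝ → α} {T : ℝ} (hT : 0 ≤ T) (h : ∀ t, 0 ≤ t → g (t + T) = g t)
    (n : ℕ) : ∀ t, 0 ≤ t → g (t + n * T) = g t := by
  induction n with
  | zero => intro t _; simp
  | succ n ih =>
    intro t ht
    have h1 : 0 ≤ t + n * T := by positivity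
    rw [← ih t ht, ← h _ h1]
    congr 1
    push_cast
    ring

lemma image_per {α : Type*} {g : ℝ → α} {T : ℝ} (hT : 0 < T)
    (h : ∀ t, 0 ≤ t → g (t + T) = g t) : g '' Ici 0 = g '' Icc 0 T := by
  refine Subset.antisymm ?_ (image_mono Icc_subset_Ici_self)
  rintro _ ⟨t, ht, rfl⟩
  have h0 : 0 ≤ t / T := div_nonneg ht hT.le
  have h1 := Nat.floor_le h0
  have h2 := Nat.lt_floor_add_one (t / T)
  rw [le_div_iff₀ hT] at h1
  rw [div_lt_iff₀ hT] at h2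
  refine ⟨t - ⌊t / T⌋₊ * T, ⟨by linarith, by linarith⟩, ?_⟩
  rw [← per_nat hT.le h ⌊t / T⌋₊ _ (by linarith)]
  congr 1
  ring

lemma ray_eq {p : E3} {φ : ℝ} (h : ray p φ) :
    p.1 = √(qq p) * Real.cos φ ∧ p.2.1 = √(qq p) * Real.sin φ := by
  obtain ⟨h1, h2⟩ := h
  have h4 := Real.sin_sq_add_cos_sq φ
  have h5 : qq p = (p.1 * Real.cos φ + p.2.1 * Real.sin φ) ^ 2 := by
    unfold qq
    linear_combination (-p.1 ^ 2 - p.2.1 ^ 2) * h4 +
      (-p.1 * Real.sin φ + p.2.1 * Real.cos φ) * h1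
  rw [h5, Real.sqrt_sq h2]
  constructor
  · linear_combination (-p.1) * h4 - Real.sin φ * h1
  · linear_combination (-p.2.1) * h4 + Real.cos φ * h1

lemma exists_ray (p : E3) : ∃ φ ∈ Icc Real.pi (3 * Real.pi), ray p φ := by
  set z : ℂ := ⟨p.1, p.2.1⟩
  have h1 : ‖z‖ * Real.cos z.arg = p.1 := Complex.norm_mul_cos_arg z
  have h2 : ‖z‖ * Real.sin z.arg = p.2.1 := Complex.norm_mul_sin_arg z
  have h3 := Complex.neg_pi_lt_arg z
  have h4 := Complex.arg_le_pi z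
  refine ⟨z.arg + 2 * Real.pi, ⟨by linarith, by linarith⟩, ?_, ?_⟩
  · rw [Real.sin_add_two_pi, Real.cos_add_two_pi, ← h1, ← h2]; ring
  · rw [Real.sin_add_two_pi, Real.cos_add_two_pi, ← h1, ← h2]
    have h5 := norm_nonneg z
    have h6 := Real.sin_sq_add_cos_sq z.arg
    have : ‖z‖ * Real.cos z.arg * Real.cos z.arg + ‖z‖ * Real.sin z.arg * Real.sin z.arg = ‖z‖ := by
      linear_combination ‖z‖ * h6
    linarith

lemma per_ray {Γ : ℝ → E3} (hper : ∀ φ, 0 ≤ φ → Γ (φ + 2 * Real.pi) = Γ φ) {φ ψ : ℝ}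
    (hφ : 0 ≤ φ) (hψ : 0 ≤ ψ) {p : E3} (hq : 0 < qq p) (h1 : ray p φ) (h2 : ray p ψ) :
    Γ φ = Γ ψ := by
  have hs : 0 < √(qq p) := Real.sqrt_pos.2 hq
  obtain ⟨a1, a2⟩ := ray_eq h1
  obtain ⟨b1, b2⟩ := ray_eq h2
  have hc : Real.cos φ = Real.cos ψ := mul_left_cancel₀ hs.ne' (a1.symm.trans b1)
  have hsn : Real.sin φ = Real.sin ψ := mul_left_cancel₀ hs.ne' (a2.symm.trans b2)
  obtain ⟨k, hk⟩ := Real.Angle.angle_eq_iff_two_pi_dvd_sub.1 (Real.Angle.cos_sin_inj hc hsn)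
  obtain ⟨n, rfl | rfl⟩ := k.eq_nat_or_neg
  · rw [← per_nat Real.two_pi_pos.le hper n ψ hψ]
    congr 1
    push_cast at hk
    linarith
  · rw [← per_nat Real.two_pi_pos.le hper n φ hφ]
    congr 1
    push_cast at hk
    linarith

lemma isClosed_ray : IsClosed {z : E3 × ℝ | ray z.1 z.2} :=
  (isClosed_eq (f := fun z : E3 × ℝ => -z.1.1 * Real.sin z.2 + z.1.2.1 * Real.cos z.2)
    (by fun_prop) continuous_const).inter (isClosed_le
      (g := fun z : E3 × ℝ => z.1.1 * Real.cos z.2 + z.1.2.1 * Real.sin z.2)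
      continuous_const (by fun_prop))

namespace Sys

variable {S : Sys}

lemma eq_of_V {p p' : E3} (hp : p ∈ K0) (hp' : p' ∈ K0) {φ : ℝ} (h : ray p φ) (h' : ray p' φ)
    (hV : S.V p p' ≤ 0) : p = p' := by
  have h1 : S.k * dist p p' ^ 2 ≤ S.V p p' := S.dist_le p hp p' hp' φ h h'
  have h2 := S.kpos
  have h3 : dist p p' ^ 2 ≤ 0 := by
    by_contra h4
    push Not at h4
    nlinarith [mul_pos h2 h4]
  exact dist_eq_zero.1 (pow_eq_zero_iff (n := 2) (by norm_num) |>.1 (le_antisymm h3 (sq_nonneg _)))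

lemma V_self (p : E3) : S.V p p = 0 := by simp [V]

/-- A fixed point of the return map. -/
lemma fixed_point (hex : ∀ p ∈ K0, ∃ X, S.XS X ∧ X 0 = p) :
    ∃ p ∈ S.D (7 / 2) (9 / 2) 1, ray p 0 ∧
      ∀ Γ, S.AS Γ 0 → Γ 0 = p → Γ (2 * Real.pi) = p := by
  have hp0 : ((2, 0, 0) : E3) ∈ K0 := by
    simp only [K0, qq, mem_ofPred_eq]; norm_num
  obtain ⟨X, hX, hX0⟩ := hex _ hp0
  have hD0 : X 0 ∈ S.D (7 / 2) (9 / 2) 1 := by
    have h := abs_le.1 (S.Hq _ hp0)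
    have hq : qq ((2, 0, 0) : E3) = 4 := by simp only [qq]; norm_num
    rw [hX0]
    refine ⟨hp0, by linarith [h.1], by linarith [h.2], by norm_num, by norm_num⟩
  have hD := hX.inv (by norm_num) le_rfl le_rfl (by norm_num) le_rfl (by norm_num) hD0
  obtain ⟨θ, τ, hτ0, -, hτm, -, -, -, hZ⟩ := hX.angle (φ₀ := 0) (fun t ht => (hD t ht).1)
    (fun t ht => by linarith [(hD t ht).2.1]) (by rw [hX0]; simp [ray])
  set Z : ℝ → E3 := fun φ => X (τ φ) with hZdef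
  have hZD : ∀ φ, 0 ≤ φ → Z φ ∈ S.D (7 / 2) (9 / 2) 1 := fun φ h =>
    hD _ (hτ0 ▸ hτm.monotone h)
  set p : ℕ → E3 := fun n => Z (n * (2 * Real.pi)) with hp
  have hn0 : ∀ n : ℕ, 0 ≤ (n : ℝ) * (2 * Real.pi) := fun n => by positivity
  have hpD : ∀ n, p n ∈ S.D (7 / 2) (9 / 2) 1 := fun n => hZD _ (hn0 n)
  have hpr : ∀ n, ray (p n) 0 := fun n => by
    have := (hZ.shift n 0 le_rfl).2.2.1
    simpa only [zero_add] using this
  have hk := S.kpos
  have hstep : ∀ n, dist (p n) (p (n + 1)) ≤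
      √(S.V (p 0) (p 1) / S.k) * Real.exp (-S.k * Real.pi) ^ n := by
    intro n
    have h1 := hZ.sync (hZ.shift 1) _ (hn0 n)
    have e1 : (n : ℝ) * (2 * Real.pi) + (1 : ℕ) * (2 * Real.pi) =
        ((n + 1 : ℕ) : ℝ) * (2 * Real.pi) := by push_cast; ring
    have e2 : Z 0 = p 0 := by simp [hp]
    have e3 : Z (0 + (1 : ℕ) * (2 * Real.pi)) = p 1 := by simp [hp]
    have e4 : Real.exp (-S.k * (n * (2 * Real.pi) - 0)) = (Real.exp (-S.k * Real.pi) ^ n) ^ 2 := by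
      rw [← Real.exp_nat_mul, ← Real.exp_nat_mul]; congr 1; push_cast; ring
    simp only [e1, e2, e3, e4] at h1
    have h2 : S.k * dist (p n) (p (n + 1)) ^ 2 ≤ S.V (p n) (p (n + 1)) :=
      S.dist_le _ (hpD n).1 _ (hpD (n + 1)).1 0 (hpr n) (hpr (n + 1))
    have hV := S.V_nonneg (p 0) (p 1)
    refine abs_le_of_sq_le_sq' ?_ (by positivity) |>.2
    rw [mul_pow, Real.sq_sqrt (by positivity), div_mul_eq_mul_div, le_div_iff₀ hk]
    calc _ = S.k * dist (p n) (p (n + 1)) ^ 2 := by ring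
      _ ≤ _ := h2.trans h1
  have hlt : Real.exp (-S.k * Real.pi) < 1 :=
    Real.exp_lt_one_iff.2 (by nlinarith [Real.pi_pos])
  obtain ⟨l, hl⟩ := cauchySeq_tendsto_of_complete (cauchySeq_of_le_geometric _ _ hlt hstep)
  have hlD : l ∈ S.D (7 / 2) (9 / 2) 1 :=
    (S.isClosed_D _ _ _).mem_of_tendsto hl (Eventually.of_forall hpD)
  have hlr : ray l 0 :=
    isClosed_ray.mem_of_tendsto (hl.prodMk_nhds (tendsto_const_nhds (x := (0 : ℝ))))
      (Eventually.of_forall hpr)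
  refine ⟨l, hlD, hlr, fun Γ hΓ hΓ0 => ?_⟩
  have h2pi := Real.two_pi_pos.le
  have hle : ∀ n, S.V (Γ (2 * Real.pi)) (p (n + 1)) ≤ S.V l (p n) := by
    intro n
    have h1 := hΓ.sync (hZ.shift n) _ h2pi
    have e1 : 2 * Real.pi + (n : ℝ) * (2 * Real.pi) = ((n + 1 : ℕ) : ℝ) * (2 * Real.pi) := by
      push_cast; ring
    simp only [e1, zero_add, hΓ0] at h1
    refine h1.trans (mul_le_of_le_one_right (S.V_nonneg _ _) ?_)
    exact Real.exp_le_one_iff.2 (by nlinarith [Real.pi_pos])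
  have t1 : Tendsto (fun n => S.V (Γ (2 * Real.pi)) (p (n + 1))) atTop
      (𝓝 (S.V (Γ (2 * Real.pi)) l)) :=
    (S.continuous_V.tendsto (_, _)).comp
      (tendsto_const_nhds.prodMk_nhds (hl.comp (tendsto_add_atTop_nat 1)))
  have t2 : Tendsto (fun n => S.V l (p n)) atTop (𝓝 (S.V l l)) :=
    (S.continuous_V.tendsto (_, _)).comp (tendsto_const_nhds.prodMk_nhds hl)
  have h3 := le_of_tendsto_of_tendsto' t1 t2 hle
  rw [V_self] at h3
  have h4 := (hΓ _ h2pi).2.2.1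
  refine eq_of_V (hΓ _ h2pi).1 hlD.1 (φ := 0) ?_ hlr h3
  simpa [ray] using h4

theorem cycle (S : Sys) {f : (Fin 3 → ℝ) → Fin 3 → ℝ} {Φ : E3 → Fin 3 → ℝ}
    {Ψ : (Fin 3 → ℝ) → E3} (hΦ : Continuous Φ) (hΨ : Continuous Ψ) (hΨΦ : ∀ p, Ψ (Φ p) = p)
    (hΦΨ : ∀ u, Φ (Ψ u) = u) (hpos : ∀ p ∈ K0, ∀ i, 0 < Φ p i)
    (hconj : ∀ u, IsSol f u → S.XS fun t => Ψ (u t))
    (hex : ∀ u₀ : Fin 3 → ℝ, (∀ i, 0 ≤ u₀ i) → ∃ u, IsSol f u ∧ u 0 = u₀) :
    ∃ γ T, IsSol f γ ∧ 0 < T ∧ (∀ t, 0 ≤ t → γ (t + T) = γ t) ∧ (∃ t, 0 ≤ t ∧ γ t ≠ γ 0) ∧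
      γ 0 ≠ 0 ∧ LAS f (γ '' Ici 0) := by
  have hex' : ∀ p ∈ K0, ∃ u, IsSol f u ∧ Ψ (u 0) = p := fun p hp => by
    obtain ⟨u, hu, h0⟩ := hex (Φ p) fun i => (hpos p hp i).le
    exact ⟨u, hu, by rw [h0, hΨΦ]⟩
  obtain ⟨p, hpD, hpr, hfix⟩ := fixed_point (S := S) fun p hp => by
    obtain ⟨u, hu, h0⟩ := hex' p hp
    exact ⟨_, hconj u hu, h0⟩
  obtain ⟨γ, hγ, hγ0⟩ := hex' p hpD.1
  set X : ℝ → E3 := fun t => Ψ (γ t) with hXdef
  have hX : S.XS X := hconj γ hγ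
  have hγX : ∀ t, γ t = Φ (X t) := fun t => (hΦΨ _).symm
  have hX0 : X 0 = p := hγ0
  have hD := hX.inv (by norm_num) le_rfl le_rfl (by norm_num) le_rfl (by norm_num) (hX0 ▸ hpD)
  obtain ⟨θ, τ, hτ0, hτθ, hτm, hlow, hτd, hτc, hΓ⟩ := hX.angle (φ₀ := 0) (fun t ht => (hD t ht).1)
    (fun t ht => by linarith [(hD t ht).2.1]) (hX0 ▸ hpr)
  set Γ : ℝ → E3 := fun φ => X (τ φ) with hΓdef
  have hτpos : ∀ φ, 0 ≤ φ → 0 ≤ τ φ := fun φ h => hτ0 ▸ hτm.monotone h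
  have hθpos : ∀ t, 0 ≤ t → 0 ≤ θ t := fun t ht => by linarith [hlow t ht]
  have hΓ0 : Γ 0 = p := by simp only [hΓdef, hτ0, hX0]
  have h2pi := Real.two_pi_pos
  have hΓ1 : S.AS (fun φ => Γ (φ + 2 * Real.pi)) 0 := by simpa using hΓ.shift 1
  have hper : ∀ φ, 0 ≤ φ → Γ (φ + 2 * Real.pi) = Γ φ := fun φ hφ => by
    have h1 := hΓ1.sync hΓ φ hφ
    simp only [zero_add, hfix Γ hΓ hΓ0, hΓ0, V_self, zero_mul] at h1
    exact eq_of_V (hΓ1 φ hφ).1 (hΓ φ hφ).1 (hΓ1 φ hφ).2.2.1 (hΓ φ hφ).2.2.1 h1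
  set T := τ (2 * Real.pi) with hT
  have hTpos : 0 < T := hτ0 ▸ hτm h2pi
  have hτper : ∀ φ, 0 ≤ φ → τ (φ + 2 * Real.pi) = τ φ + T := fun φ hφ => by
    have h := constant_of_has_deriv_right_zero (a := 0) (b := φ)
      (f := fun φ => τ (φ + 2 * Real.pi) - τ φ) (by fun_prop) (fun x hx => by
        have h1 := (hτd (x + 2 * Real.pi) (by linarith [hx.1])).comp_add_const x (2 * Real.pi)
        have h2 := hτd x hx.1
        have h3 : X (τ (x + 2 * Real.pi)) = X (τ x) := hper x hx.1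
        rw [h3] at h1
        exact ((h1.fun_sub h2).congr_deriv (sub_self _)).hasDerivWithinAt) φ ⟨hφ, le_rfl⟩
    simp only [zero_add, hτ0, sub_zero] at h
    linarith
  have hXΓ : ∀ t, X t = Γ (θ t) := fun t => by simp only [hΓdef, hτθ]
  have hγper : ∀ t, 0 ≤ t → γ (t + T) = γ t := fun t ht => by
    rw [hγX, hγX t, hXΓ t, ← hper _ (hθpos t ht)]
    simp only [hΓdef]
    rw [hτper _ (hθpos t ht), hτθ]
  have hγc : ContinuousOn γ (Ici 0) := fun t ht => (hγ t ht).2.continuousWithinAt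
  have hcomp : IsCompact (γ '' Ici 0) := by
    rw [image_per hTpos hγper]
    exact isCompact_Icc.image_of_continuousOn (hγc.mono Icc_subset_Ici_self)
  have hΓc : ContinuousOn Γ (Ici 0) := hX.cont.comp hτc.continuousOn fun φ h => hτpos φ h
  have hk := S.kpos
  have key : ∀ η, 0 < η → ∃ U, IsOpen U ∧ γ '' Ici 0 ⊆ U ∧ ∀ u, IsSol f u → u 0 ∈ U →
      ∀ t, 0 ≤ t → Ψ (u t) ∈ K0 ∧ ∃ s, 0 ≤ s ∧
        S.k * dist (Ψ (u t)) (X s) ^ 2 < η * Real.exp (-S.k * t) := by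
    intro η hη
    set C : Set (E3 × Icc Real.pi (3 * Real.pi)) :=
      {z | ray z.1 z.2 ∧ η ≤ S.V z.1 (Γ z.2)} with hC
    have hCc : IsClosed C := by
      have h1 : Continuous fun z : E3 × Icc Real.pi (3 * Real.pi) => Γ z.2 :=
        hΓc.comp_continuous (by fun_prop) fun z => Real.pi_pos.le.trans z.2.2.1
      refine IsClosed.inter ?_ (isClosed_le continuous_const
        (S.continuous_V.comp (continuous_fst.prodMk h1)))
      exact isClosed_ray.preimage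
        (f := fun z : E3 × Icc Real.pi (3 * Real.pi) => (z.1, (z.2 : ℝ))) (by fun_prop)
    have hC' : IsClosed (Prod.fst '' C) := isClosedMap_fst_of_compactSpace _ hCc
    set U0 : Set E3 := {p | 2 < qq p ∧ qq p < 6 ∧ 3 < S.H p ∧ S.H p < 5 ∧ -2 < p.2.2 ∧ p.2.2 < 2}
      with hU0
    have hU0o : IsOpen U0 :=
      (isOpen_lt continuous_const continuous_qq).inter
        ((isOpen_lt continuous_qq continuous_const).inter
        ((isOpen_lt continuous_const S.cH).inter ((isOpen_lt S.cH continuous_const).inter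
        ((isOpen_lt continuous_const continuous_snd.snd).inter
        (isOpen_lt continuous_snd.snd continuous_const)))))
    refine ⟨Ψ ⁻¹' (U0 ∩ (Prod.fst '' C)ᶜ), (hU0o.inter hC'.isOpen_compl).preimage hΨ, ?_, ?_⟩
    · rintro _ ⟨t, ht, rfl⟩
      obtain ⟨hK, h1, h2, h3, h4⟩ := hD t ht
      have hq := abs_le.1 (S.Hq _ hK)
      refine ⟨⟨?_, ?_, ?_, ?_, ?_, ?_⟩, ?_⟩
      · change 2 < qq (X t); linarith [hq.2]
      · change qq (X t) < 6; linarith [hq.1]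
      · change 3 < S.H (X t); linarith
      · change S.H (X t) < 5; linarith
      · change -2 < (X t).2.2; linarith
      · change (X t).2.2 < 2; linarith
      · rintro ⟨⟨p', φ⟩, ⟨hr, hV⟩, hp'⟩
        change p' = X t at hp'
        subst hp'
        have hr' : ray (X t) (θ t) := by
          have := (hΓ _ (hθpos t ht)).2.2.1
          rwa [← hXΓ] at this
        have h5 := per_ray hper (Real.pi_pos.le.trans φ.2.1) (hθpos t ht)
          (by linarith [hK.1]) hr hr'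
        change η ≤ S.V (X t) (Γ φ) at hV
        rw [h5, ← hXΓ, V_self] at hV
        linarith
    · intro u hu ⟨⟨h1, h2, h3, h4, h5, h6⟩, hnot⟩ t ht
      have hY : S.XS fun t => Ψ (u t) := hconj u hu
      have hYD := hY.inv (a := 3) (b := 5) (z := 2) le_rfl (by norm_num) (by norm_num) le_rfl
        (by norm_num) le_rfl ⟨⟨h1.le, h2.le, by linarith, by linarith⟩, h3.le, h4.le, h5.le, h6.le⟩
      obtain ⟨φ₀, hφ₀, hr⟩ := exists_ray (Ψ (u 0))
      have hV : S.V (Ψ (u 0)) (Γ φ₀) < η := by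
        by_contra hV
        exact hnot ⟨(Ψ (u 0), ⟨φ₀, hφ₀⟩), ⟨hr, not_lt.1 hV⟩, rfl⟩
      obtain ⟨θ', τ', hτ0', hτθ', -, hlow', -, -, hZ⟩ := hY.angle (φ₀ := φ₀)
        (fun t ht => (hYD t ht).1) (fun t ht => (hYD t ht).2.1) hr
      have hφ0 : 0 ≤ φ₀ := Real.pi_pos.le.trans hφ₀.1
      have hθ' : φ₀ ≤ θ' t := by linarith [hlow' t ht]
      have h7 := hZ.sync (hΓ.mono hφ0) _ hθ'
      have h8 := S.dist_le _ (hZ _ hθ').1 _ (hΓ _ (hφ0.trans hθ')).1 _ (hZ _ hθ').2.2.1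
        (hΓ _ (hφ0.trans hθ')).2.2.1
      simp only [hτθ', hτ0'] at h7 h8
      refine ⟨(hYD t ht).1, τ (θ' t), hτpos _ (hφ0.trans hθ'), (h8.trans h7).trans_lt ?_⟩
      have h9 : Real.exp (-S.k * (θ' t - φ₀)) ≤ Real.exp (-S.k * t) :=
        Real.exp_le_exp.2 (by nlinarith [hlow' t ht])
      calc _ < η * Real.exp (-S.k * (θ' t - φ₀)) :=
            mul_lt_mul_of_pos_right hV (Real.exp_pos _)
        _ ≤ _ := mul_le_mul_of_nonneg_left h9 hη.le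
  have huc := Metric.uniformContinuousOn_iff.1
    (isCompact_K0.uniformContinuousOn_of_continuous hΦ.continuousOn)
  have fin : ∀ ε, 0 < ε → ∃ ι, 0 < ι ∧ ∀ v : Fin 3 → ℝ, Ψ v ∈ K0 → ∀ s, 0 ≤ s →
      S.k * dist (Ψ v) (X s) ^ 2 < S.k * ι ^ 2 → Metric.infDist v (γ '' Ici 0) < ε := by
    intro ε hε
    obtain ⟨ι, hι, h⟩ := huc ε hε
    refine ⟨ι, hι, fun v hv s hs hd => ?_⟩
    have h1 : dist (Ψ v) (X s) < ι :=
      lt_of_pow_lt_pow_left₀ 2 hι.le (lt_of_mul_lt_mul_left hd hk.le)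
    have h2 := h _ hv _ (hD s hs).1 h1
    rw [hΦΨ, ← hγX] at h2
    exact (Metric.infDist_le_dist_of_mem (mem_image_of_mem γ hs)).trans_lt h2
  refine ⟨γ, T, hγ, hTpos, hγper, ⟨τ Real.pi, hτpos _ Real.pi_pos.le, fun h => ?_⟩, fun h => ?_,
    las_of hcomp ⟨γ 0, mem_image_of_mem γ (le_refl (0 : ℝ))⟩ (fun ε hε => ?_) ?_⟩
  · have h1 : Γ Real.pi = p := by
      simp only [hΓdef, hXdef, h, hγ0]
    have h2 := (hΓ _ Real.pi_pos.le).2.2.1
    rw [h1] at h2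
    have h3 := hpD.1.1
    simp only [ray, qq, Real.sin_zero, Real.cos_zero, Real.sin_pi, Real.cos_pi] at h2 hpr h3
    have h4 : p.1 = 0 := by linarith [h2.2, hpr.2]
    have h5 : p.2.1 = 0 := by linarith [hpr.1]
    rw [h4, h5] at h3
    norm_num at h3
  · have h1 := hpos _ (hD 0 le_rfl).1 0
    rw [← hγX, h] at h1
    exact lt_irrefl _ h1
  · obtain ⟨ι, hι, h⟩ := fin ε hε
    obtain ⟨U, hU, hsub, hU'⟩ := key (S.k * ι ^ 2) (by positivity)
    refine ⟨U, hU, hsub, fun u hu h0 t ht => ?_⟩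
    obtain ⟨h1, s, hs, h2⟩ := hU' u hu h0 t ht
    refine h _ h1 s hs (h2.trans_le (mul_le_of_le_one_right (by positivity) ?_))
    exact Real.exp_le_one_iff.2 (by nlinarith)
  · obtain ⟨U, hU, hsub, hU'⟩ := key 1 one_pos
    refine ⟨U, hU, hsub, fun u hu h0 => Metric.tendsto_nhds.2 fun ε hε => ?_⟩
    obtain ⟨ι, hι, h⟩ := fin ε hε
    have ht : Tendsto (fun t => Real.exp (-S.k * t)) atTop (𝓝 0) :=
      Real.tendsto_exp_atBot.comp (tendsto_id.const_mul_atTop_of_neg (by linarith))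
    filter_upwards [ht.eventually (gt_mem_nhds (show 0 < S.k * ι ^ 2 by positivity)),
      eventually_ge_atTop 0] with t h1 h2
    obtain ⟨h3, s, hs, h4⟩ := hU' u hu h0 t h2
    rw [Real.dist_eq, sub_zero, abs_of_nonneg Metric.infDist_nonneg]
    exact h _ h3 s hs (by linarith)

end Sys

end Pool.Agent.MP_51358b_an
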